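import Mathlib
import Pool.Agent.Work.MP_56168e_lc.Conc
import Pool.Agent.Work.MP_56168e_lc.RlF
import Pool.Agent.Work.MP_56168e_lc.IndF

set_option autoImplicit false

/-!
# One-sided fooling of all DNFs.  Definitions (FIXED, do not change).

`flp J x` = x with the coordinates in J flipped.
`cm V z g` = sum over S of z^|S ∩ V| * (fc g S) * chi S, complex valued; for |z| = 1 it is a unitary
noise operator on the coordinates of V.
`uu T i x` = 1 iff no term T l with l < i is satisfied by x overwritten by T i.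
`Qz T z` = sum_i ti (T i) * cm univ z (uu T i);  `dn T` = 0/1 indicator of the DNF.
`Fst T x Z i`: i is the first term among those satisfied by x and disjoint from Z.
`mm ψ g` = Fourier multiplier with ψ(|S|);  `vv T ψ` = sum_i ti (T i) * mm ψ (uu T i).
-/

namespace Pool.Agent.Work.MP_56168e_lc.OS

open Finset

variable {n s : ℕ}

def flp (J : Finset (Fin n)) (x : Cube n) : Cube n := fun i => if i ∈ J then !(x i) else x i

noncomputable def cm (V : Finset (Fin n)) (z : ℂ) (g : Cube n → ℝ) (x : Cube n) : ℂ :=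
  ∑ S : Finset (Fin n), z ^ (S ∩ V).card * ((fc g S * chi S x : ℝ) : ℂ)

open Classical in
noncomputable def uu (T : Fin s → PA n) (i : Fin s) (x : Cube n) : ℝ :=
  if ∃ l, l < i ∧ Sat (T l) (ow (T i) x) then 0 else 1

noncomputable def Qz (T : Fin s → PA n) (z : ℂ) (x : Cube n) : ℂ :=
  ∑ i, ((ti (T i) x : ℝ) : ℂ) * cm univ z (uu T i) x

open Classical in
noncomputable def dn (T : Fin s → PA n) (x : Cube n) : ℝ := if ∃ i, Sat (T i) x then 1 else 0

def Fst (T : Fin s → PA n) (x : Cube n) (Z : Finset (Fin n)) (i : Fin s) : Prop :=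
  Sat (T i) x ∧ Disjoint (dom (T i)) Z ∧ ∀ l < i, Sat (T l) x → ¬ Disjoint (dom (T l)) Z

open Classical in
/-- weight of the event that `i` is the first term satisfied by `x` and disjoint from a random set -/
noncomputable def pI (T : Fin s → PA n) (b : ℝ) (x : Cube n) (i : Fin s) : ℝ :=
  ∑ Z ∈ (univ : Finset (Finset (Fin n))).filter (fun Z => Fst T x Z i), b ^ Z.card / (1 + b) ^ n

noncomputable def mm (ψ : ℕ → ℝ) (g : Cube n → ℝ) (x : Cube n) : ℝ :=
  ∑ S : Finset (Fin n), ψ S.card * fc g S * chi S x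

noncomputable def vv (T : Fin s → PA n) (ψ : ℕ → ℝ) (x : Cube n) : ℝ :=
  ∑ i, ti (T i) x * mm ψ (uu T i) x

/-- expected number of satisfied terms -/
noncomputable def mu (T : Fin s → PA n) : ℝ := ∑ i, pw (T i)

/-- the terms before T i, restricted by T i; this is the DNF 1 - uu T i -/
noncomputable def el (T : Fin s → PA n) (i : Fin s) : List (PA n) :=
  rl (T i) (((univ : Finset (Fin s)).filter (fun l => l < i)).toList.map T)

/-- a list as a family -/
def fam (L : List (PA n)) (k : Fin L.length) : PA n := L.get k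

noncomputable def psi {M : ℕ} (w : Fin M → ℝ) (z : Fin M → ℂ) (m : ℕ) : ℝ :=
  ∑ r, w r * (z r ^ m).re

noncomputable def rt1 (M : ℕ) (r : Fin M) : ℂ :=
  Complex.exp (2 * Real.pi * Complex.I * ((r : ℕ) : ℂ) / (M : ℂ))

/-- averaging polynomial of length L -/
noncomputable def G (L : ℕ) (z : ℂ) : ℂ := (∑ l ∈ range L, z ^ l) / L

def a0 (W : ℕ) : ℕ := Nat.log 2 W + 1

def Ls (W q : ℕ) : ℕ := 64 * W * a0 W * q ^ 2

/-- the kernel polynomial -/
noncomputable def pz (W q : ℕ) (z : ℂ) : ℂ :=
  G (Ls W q) z ^ 3 * ∏ j ∈ Icc 1 (a0 W), G (2 ^ j) z ^ (16 * W / 2 ^ j + 1)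

/-- a probability measure on the unit circle whose moments of order in [K, n] vanish and
which is concentrated near 1 -/
structure Kern (W n K : ℕ) (η : ℝ) (M : ℕ) (w : Fin M → ℝ) (z : Fin M → ℂ) : Prop where
  nonneg : ∀ r, 0 ≤ w r
  circle : ∀ r, ‖z r‖ = 1
  total : ∑ r, w r = 1
  vanish : ∀ m, K ≤ m → m ≤ n → psi w z m = 0
  conc : ∑ r, w r * (1 + ‖1 - z r‖ / 2) ^ (2 * W) ≤ 1 + η

/-- one-sided approximator of the DNF T: vanishes off the DNF, right mean, nearly right second
moment, spectral norm at most Λ, depends only on the variables of the DNF -/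
structure Apx (T : Fin s → PA n) (η Λ : ℝ) (v : Cube n → ℝ) : Prop where
  off : ∀ x, dn T x = 0 → v x = 0
  mean : ex v = ex (dn T)
  sq : ex (fun x => v x ^ 2) ≤ (1 + η) * ex (dn T)
  nrml : nrm v ≤ Λ
  ind : ∀ D : Finset (Fin n), (∀ i, Disjoint (dom (T i)) D) → Indep D v

end Pool.Agent.Work.MP_56168e_lc.OS
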