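import Mathlib
import Pool.Agent.Work.MP_56168e_lc.OS.Defs

set_option autoImplicit false

/-!
Flip formula for `cm`.  PROOFS.  chi_flp: product over i ∈ S of (sign of x i) * (-1 if i ∈ J).
cm_flip: expand g (flp J x) by `inversion` and chi_flp, exchange the sums; for fixed S the sum over
J ⊆ V of a^|V \ J| β^|J| (-1)^|S ∩ J| is ∏_{v ∈ V} (a + β (if v ∈ S then -1 else 1)) = z^|S ∩ V|
(`Finset.prod_add`), because a + β = 1 and a - β = z for a = (1+z)/2, β = (1-z)/2.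
norm_cm_le: triangle inequality in cm_flip, ‖(1+z)/2‖ ≤ 1.
-/

namespace Pool.Agent.Work.MP_56168e_lc.OS

open Finset

variable {n s : ℕ}

lemma flp_empty (x : Cube n) : flp ∅ x = x := by
  funext i
  simp [flp]

lemma chi_flp (S J : Finset (Fin n)) (x : Cube n) :
    chi S (flp J x) = (-1) ^ (S ∩ J).card * chi S x := by
  have h : ((-1 : ℝ)) ^ (S ∩ J).card = ∏ i ∈ S, (if i ∈ J then (-1 : ℝ) else 1) := by
    rw [Finset.prod_ite_mem, Finset.prod_const]
  unfold chi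
  rw [h, ← Finset.prod_mul_distrib]
  refine Finset.prod_congr rfl fun i _ => ?_
  unfold flp
  by_cases hi : i ∈ J <;> cases hx : x i <;> simp [hi, hx]

private lemma sum_pow (V S : Finset (Fin n)) (z : ℂ) :
    ∑ J ∈ V.powerset, ((1 + z) / 2) ^ (V \ J).card * ((1 - z) / 2) ^ J.card *
      (-1) ^ (S ∩ J).card = z ^ (S ∩ V).card := by
  have h := Finset.prod_add (fun i => ((1 - z) / 2) * (if i ∈ S then (-1 : ℂ) else 1))
    (fun _ : Fin n => (1 + z) / 2) V
  have h1 : ∏ i ∈ V, (((1 - z) / 2) * (if i ∈ S then (-1 : ℂ) else 1) + (1 + z) / 2) =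
      z ^ (S ∩ V).card := by
    have h2 : ∏ i ∈ V, (((1 - z) / 2) * (if i ∈ S then (-1 : ℂ) else 1) + (1 + z) / 2) =
        ∏ i ∈ V, (if i ∈ S then z else 1) := by
      refine Finset.prod_congr rfl fun i _ => ?_
      split_ifs <;> ring
    rw [h2, Finset.prod_ite_mem, Finset.prod_const, Finset.inter_comm]
  rw [← h1, h]
  refine Finset.sum_congr rfl fun J _ => ?_
  rw [Finset.prod_mul_distrib, Finset.prod_const, Finset.prod_ite_mem, Finset.prod_const,
    Finset.prod_const, Finset.inter_comm J S]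
  ring

theorem cm_flip (V : Finset (Fin n)) (z : ℂ) (g : Cube n → ℝ) (x : Cube n) :
    cm V z g x = ∑ J ∈ V.powerset, ((1 + z) / 2) ^ (V \ J).card * ((1 - z) / 2) ^ J.card *
      ((g (flp J x) : ℝ) : ℂ) := by
  have h1 : ∀ J : Finset (Fin n), ((g (flp J x) : ℝ) : ℂ) =
      ∑ S : Finset (Fin n), (-1) ^ (S ∩ J).card * ((fc g S * chi S x : ℝ) : ℂ) := by
    intro J
    rw [inversion g (flp J x)]
    push_cast
    refine Finset.sum_congr rfl fun S _ => ?_
    rw [chi_flp]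
    push_cast
    ring
  unfold cm
  simp only [h1, Finset.mul_sum]
  rw [Finset.sum_comm]
  refine Finset.sum_congr rfl fun S _ => ?_
  rw [← sum_pow V S z, Finset.sum_mul]
  refine Finset.sum_congr rfl fun J _ => ?_
  ring

theorem norm_cm_le (V : Finset (Fin n)) {z : ℂ} (hz : ‖z‖ = 1) {g : Cube n → ℝ}
    (hg : ∀ x, 0 ≤ g x) (x : Cube n) :
    ‖cm V z g x‖ ≤ ∑ J ∈ V.powerset, (‖1 - z‖ / 2) ^ J.card * g (flp J x) := by
  rw [cm_flip]
  refine (norm_sum_le _ _).trans (Finset.sum_le_sum fun J _ => ?_)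
  have h1 : ‖(1 + z) / 2‖ ≤ 1 := by
    rw [norm_div]
    have h2 : ‖(1 + z : ℂ)‖ ≤ 2 := by
      calc ‖(1 + z : ℂ)‖ ≤ ‖(1 : ℂ)‖ + ‖z‖ := norm_add_le _ _
        _ = 2 := by rw [hz, norm_one]; norm_num
    have h3 : ‖(2 : ℂ)‖ = 2 := by norm_num
    rw [h3]
    linarith
  have h4 : ‖(1 - z) / 2‖ = ‖1 - z‖ / 2 := by
    rw [norm_div]
    norm_num
  rw [norm_mul, norm_mul, norm_pow, norm_pow, h4, Complex.norm_real, Real.norm_eq_abs,
    abs_of_nonneg (hg _)]
  refine mul_le_mul_of_nonneg_right ?_ (hg _)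
  have h5 : ‖(1 + z) / 2‖ ^ (V \ J).card ≤ 1 := pow_le_one₀ (norm_nonneg _) h1
  have h6 : 0 ≤ (‖1 - z‖ / 2) ^ J.card := by positivity
  nlinarith

end Pool.Agent.Work.MP_56168e_lc.OS
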