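import Mathlib
import Pool.Agent.Work.MP_56168e_lc.OS.Defs

set_option autoImplicit false

/-!
Elementary facts on `uu`, `dn`, `el`, `fam`.  PROOFS.  All from the definitions; `fi_rl`, `rl_width`,
`dom_rt`, `ow_eq_of_sat` of the library.  sum_ti_uu: if some term is satisfied, only the first
satisfied term contributes.
-/

namespace Pool.Agent.Work.MP_56168e_lc.OS

open Finset

variable {n s : ℕ}

lemma uu_nonneg (T : Fin s → PA n) (i : Fin s) (x : Cube n) : 0 ≤ uu T i x := by
  unfold uu; split_ifs <;> norm_num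

lemma uu_le_one (T : Fin s → PA n) (i : Fin s) (x : Cube n) : uu T i x ≤ 1 := by
  unfold uu; split_ifs <;> norm_num

lemma dn_nonneg (T : Fin s → PA n) (x : Cube n) : 0 ≤ dn T x := by
  unfold dn; split_ifs <;> norm_num

lemma dn_le_one (T : Fin s → PA n) (x : Cube n) : dn T x ≤ 1 := by
  unfold dn; split_ifs <;> norm_num

private lemma ow_cg (P : PA n) {x y : Cube n} (h : ∀ i, i ∉ dom P → x i = y i) :
    ow P x = ow P y := by
  funext i
  unfold ow
  cases hi : P i with
  | none => exact h i (by rw [mem_dom, not_not]; exact hi)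
  | some b => rfl

/-- x overwritten by T i does not depend on the variables of T i -/
lemma indep_uu (T : Fin s → PA n) (i : Fin s) : Indep (dom (T i)) (uu T i) := by
  intro x y h
  unfold uu
  rw [ow_cg (T i) h]

private lemma sat_cg {P : PA n} {x y : Cube n} (h : ∀ i ∈ dom P, x i = y i) :
    Sat P x ↔ Sat P y := by
  constructor
  · intro hs j c hc
    rw [← h j (by rw [mem_dom, hc]; exact Option.some_ne_none c)]
    exact hs j c hc
  · intro hs j c hc
    rw [h j (by rw [mem_dom, hc]; exact Option.some_ne_none c)]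
    exact hs j c hc

/-- if D meets no term then uu T i does not depend on D -/
lemma indep_uu_of (T : Fin s → PA n) (i : Fin s) {D : Finset (Fin n)}
    (h : ∀ l, Disjoint (dom (T l)) D) : Indep D (uu T i) := by
  intro x y hxy
  have key : ∀ l, Sat (T l) (ow (T i) x) ↔ Sat (T l) (ow (T i) y) := by
    intro l
    refine sat_cg fun j hj => ?_
    unfold ow
    rw [hxy j (Finset.disjoint_left.1 (h l) hj)]
  have key2 : (∃ l, l < i ∧ Sat (T l) (ow (T i) x)) ↔ (∃ l, l < i ∧ Sat (T l) (ow (T i) y)) :=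
    exists_congr fun l => and_congr_right fun _ => key l
  unfold uu
  by_cases h1 : ∃ l, l < i ∧ Sat (T l) (ow (T i) x)
  · rw [if_pos h1, if_pos (key2.1 h1)]
  · rw [if_neg h1, if_neg (fun h2 => h1 (key2.2 h2))]

theorem sum_ti_uu (T : Fin s → PA n) (x : Cube n) : ∑ i, ti (T i) x * uu T i x = dn T x := by
  classical
  by_cases h : ∃ i, Sat (T i) x
  · obtain ⟨i0, hi0, hmin⟩ : ∃ i0, Sat (T i0) x ∧ ∀ l, l < i0 → ¬ Sat (T l) x := by
      have hne : ((univ : Finset (Fin s)).filter (fun i => Sat (T i) x)).Nonempty := by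
        obtain ⟨i, hi⟩ := h
        exact ⟨i, by simpa using hi⟩
      refine ⟨((univ : Finset (Fin s)).filter (fun i => Sat (T i) x)).min' hne, ?_, ?_⟩
      · exact (mem_filter.1 (Finset.min'_mem _ hne)).2
      · intro l hl hs
        have hl' : l ∈ (univ : Finset (Fin s)).filter (fun i => Sat (T i) x) := by simpa using hs
        exact absurd hl (not_lt.2 (Finset.min'_le _ l hl'))
    have hdn : dn T x = 1 := by unfold dn; rw [if_pos h]
    rw [hdn, Finset.sum_eq_single i0]
    · have h1 : ti (T i0) x = 1 := by unfold ti; rw [if_pos hi0]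
      have h2 : uu T i0 x = 1 := by
        unfold uu
        rw [ow_eq_of_sat hi0, if_neg]
        rintro ⟨l, hl, hs⟩
        exact hmin l hl hs
      rw [h1, h2, mul_one]
    · intro i _ hi
      by_cases hs : Sat (T i) x
      · have h2 : uu T i x = 0 := by
          unfold uu
          rw [ow_eq_of_sat hs, if_pos]
          refine ⟨i0, ?_, hi0⟩
          rcases lt_trichotomy i0 i with h3 | h3 | h3
          · exact h3
          · exact absurd h3.symm hi
          · exact absurd hs (hmin i h3)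
        rw [h2, mul_zero]
      · have h1 : ti (T i) x = 0 := by unfold ti; rw [if_neg hs]
        rw [h1, zero_mul]
    · intro h3
      exact absurd (mem_univ _) h3
  · have hdn : dn T x = 0 := by unfold dn; rw [if_neg h]
    rw [hdn]
    refine Finset.sum_eq_zero fun i _ => ?_
    have h1 : ti (T i) x = 0 := by unfold ti; rw [if_neg (fun hs => h ⟨i, hs⟩)]
    rw [h1, zero_mul]

lemma uu_eq (T : Fin s → PA n) (i : Fin s) (x : Cube n) : uu T i x = 1 - fi (el T i) x := by
  unfold el
  rw [fi_rl]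
  unfold uu fi Ev
  have key : (∃ l, l < i ∧ Sat (T l) (ow (T i) x)) ↔
      (∃ P ∈ ((univ : Finset (Fin s)).filter (fun l => l < i)).toList.map T,
        Sat P (ow (T i) x)) := by
    simp
  by_cases h : ∃ l, l < i ∧ Sat (T l) (ow (T i) x)
  · rw [if_pos h, if_pos (key.1 h), sub_self]
  · rw [if_neg h, if_neg (fun h' => h (key.2 h')), sub_zero]

lemma el_width (T : Fin s → PA n) (i : Fin s) {W : ℕ} (hW : ∀ i, (dom (T i)).card ≤ W) :
    ∀ P ∈ el T i, (dom P).card ≤ W := by
  unfold el
  refine rl_width _ _ fun P hP => ?_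
  obtain ⟨l, -, rfl⟩ := List.mem_map.1 hP
  exact hW l

lemma el_length (T : Fin s → PA n) (i : Fin s) : (el T i).length ≤ s := by
  unfold el
  refine (rl_length _ _).trans ?_
  rw [List.length_map, Finset.length_toList]
  refine (Finset.card_filter_le _ _).trans ?_
  rw [Finset.card_univ, Fintype.card_fin]

lemma el_disj (T : Fin s → PA n) (i : Fin s) : ∀ P ∈ el T i, Disjoint (dom P) (dom (T i)) := by
  intro P hP
  unfold el rl at hP
  obtain ⟨Q, -, rfl⟩ := List.mem_map.1 hP
  rw [dom_rt]
  exact Finset.sdiff_disjoint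

lemma dn_fam (L : List (PA n)) (x : Cube n) : dn (fam L) x = fi L x := by
  unfold dn fi Ev fam
  have key : (∃ i, Sat (L.get i) x) ↔ ∃ P ∈ L, Sat P x := by
    constructor
    · rintro ⟨i, hi⟩
      exact ⟨_, List.get_mem L i, hi⟩
    · rintro ⟨P, hP, hs⟩
      obtain ⟨i, rfl⟩ := List.mem_iff_get.1 hP
      exact ⟨i, hs⟩
  by_cases h : ∃ i, Sat (L.get i) x
  · rw [if_pos h, if_pos (key.1 h)]
  · rw [if_neg h, if_neg (fun h' => h (key.2 h'))]

lemma dn_ofFn (T : Fin s → PA n) (x : Cube n) : fi (List.ofFn T) x = dn T x := by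
  unfold dn fi Ev
  have key : (∃ P ∈ List.ofFn T, Sat P x) ↔ ∃ i, Sat (T i) x := by
    constructor
    · rintro ⟨P, hP, hs⟩
      obtain ⟨i, rfl⟩ := (List.mem_ofFn' T P).1 hP
      exact ⟨i, hs⟩
    · rintro ⟨i, hi⟩
      exact ⟨_, (List.mem_ofFn' T _).2 ⟨i, rfl⟩, hi⟩
  by_cases h : ∃ i, Sat (T i) x
  · rw [if_pos h, if_pos (key.2 h)]
  · rw [if_neg h, if_neg (fun h' => h (key.1 h'))]

lemma ti_le_dn (T : Fin s → PA n) (i : Fin s) (x : Cube n) : ti (T i) x ≤ dn T x := by
  by_cases h : Sat (T i) x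
  · have : dn T x = 1 := by unfold dn; rw [if_pos ⟨i, h⟩]
    rw [this]
    exact ti_le_one _ _
  · have : ti (T i) x = 0 := by unfold ti; rw [if_neg h]
    rw [this]
    exact dn_nonneg _ _

end Pool.Agent.Work.MP_56168e_lc.OS
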