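import Mathlib
import Pool.Agent.Work.MP_56168e_lc.OS.Uu
import Pool.Agent.Work.MP_56168e_lc.OS.Flip

set_option autoImplicit false

/-!
Pointwise combinatorial lemma.  PROOFS.  sum_pI_le: for given Z at most one i has Fst T x Z i, and
then dn T x = 1; the sum over Z of b^|Z| is (1+b)^n (`Finset.sum_pow_mul_eq_add_pow` or prod_add).
flip_le_pI: assume Sat (T i) x (otherwise the left side is 0).  Multiply by (1+b)^(n - |U|), the sum
of b^|Y| over Y ⊆ Uᶜ.  The map (J, Y) ↦ Z = J ∪ Y is injective on J ⊆ U \ dom (T i), Y ⊆ Uᶜ, and if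
uu T i (flp J x) = 1 then Fst T x Z i: Z is disjoint from dom (T i); if l < i, Sat (T l) x and
dom (T l) is disjoint from Z, then it is disjoint from J, so Sat (T l) (flp J x), and flp J x equals
its overwriting by T i because J is disjoint from dom (T i) and Sat (T i) x: contradiction.
-/

namespace Pool.Agent.Work.MP_56168e_lc.OS

open Finset

variable {n s : ℕ}

lemma pI_nonneg (T : Fin s → PA n) {b : ℝ} (hb : 0 ≤ b) (x : Cube n) (i : Fin s) :
    0 ≤ pI T b x i := by
  unfold pI
  exact sum_nonneg fun Z _ => by positivity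

private lemma sum_pow_card (b : ℝ) (U : Finset (Fin n)) :
    ∑ Y ∈ U.powerset, b ^ Y.card = (1 + b) ^ U.card := by
  rw [← Finset.prod_const, Finset.prod_one_add]
  refine Finset.sum_congr rfl fun Y _ => ?_
  rw [Finset.prod_const]

private lemma fst_uniq {T : Fin s → PA n} {x : Cube n} {Z : Finset (Fin n)} {i j : Fin s}
    (hi : Fst T x Z i) (hj : Fst T x Z j) : i = j := by
  rcases lt_trichotomy i j with h | h | h
  · exact absurd hi.2.1 (hj.2.2 i h hi.1)
  · exact h
  · exact absurd hj.2.1 (hi.2.2 j h hj.1)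

theorem sum_pI_le (T : Fin s → PA n) {b : ℝ} (hb : 0 ≤ b) (x : Cube n) :
    ∑ i, pI T b x i ≤ dn T x := by
  classical
  have h1 : ∑ i, pI T b x i = ∑ Z : Finset (Fin n), ∑ i,
      if Fst T x Z i then b ^ Z.card / (1 + b) ^ n else 0 := by
    unfold pI
    rw [Finset.sum_comm]
    refine Finset.sum_congr rfl fun i _ => ?_
    rw [Finset.sum_filter]
  have h2 : ∀ Z : Finset (Fin n), (∑ i, if Fst T x Z i then b ^ Z.card / (1 + b) ^ n else 0) ≤
      b ^ Z.card / (1 + b) ^ n * dn T x := by
    intro Z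
    by_cases h : ∃ i, Fst T x Z i
    · obtain ⟨i, hi⟩ := h
      have hd : dn T x = 1 := by unfold dn; rw [if_pos ⟨i, hi.1⟩]
      rw [Finset.sum_eq_single i, if_pos hi, hd, mul_one]
      · intro j _ hj
        rw [if_neg (fun h' => hj (fst_uniq h' hi))]
      · intro h'
        exact absurd (mem_univ _) h'
    · rw [Finset.sum_eq_zero]
      · have := dn_nonneg T x
        positivity
      · intro i _
        rw [if_neg (fun h' => h ⟨i, h'⟩)]
  have h3 : ∑ Z : Finset (Fin n), b ^ Z.card / (1 + b) ^ n = 1 := by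
    have h4 := sum_pow_card b (univ : Finset (Fin n))
    rw [Finset.powerset_univ, Finset.card_univ, Fintype.card_fin] at h4
    rw [← Finset.sum_div, h4]
    exact div_self (by positivity)
  rw [h1]
  calc ∑ Z : Finset (Fin n), ∑ i, (if Fst T x Z i then b ^ Z.card / (1 + b) ^ n else 0)
      ≤ ∑ Z : Finset (Fin n), b ^ Z.card / (1 + b) ^ n * dn T x :=
        Finset.sum_le_sum fun Z _ => h2 Z
    _ = dn T x := by rw [← Finset.sum_mul, h3, one_mul]

private lemma uu_zero_or (T : Fin s → PA n) (i : Fin s) (x : Cube n) :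
    uu T i x = 0 ∨ uu T i x = 1 := by
  unfold uu
  split_ifs
  · exact Or.inl rfl
  · exact Or.inr rfl

private lemma sat_flp {P : PA n} {x : Cube n} {J : Finset (Fin n)} (hd : Disjoint (dom P) J)
    (h : Sat P x) : Sat P (flp J x) := by
  intro i c hc
  have h1 : i ∈ dom P := by rw [mem_dom, hc]; exact Option.some_ne_none c
  unfold flp
  rw [if_neg (Finset.disjoint_left.1 hd h1)]
  exact h i c hc

theorem flip_le_pI (T : Fin s → PA n) {b : ℝ} (hb : 0 ≤ b) (x : Cube n) (i : Fin s)
    {U : Finset (Fin n)} (hU : dom (T i) ⊆ U) :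
    ti (T i) x * ∑ J ∈ (U \ dom (T i)).powerset, b ^ J.card * uu T i (flp J x)
      ≤ (1 + b) ^ U.card * pI T b x i := by
  classical
  by_cases hs : Sat (T i) x
  swap
  · have h1 : ti (T i) x = 0 := by unfold ti; rw [if_neg hs]
    rw [h1, zero_mul]
    have := pI_nonneg T hb x i
    positivity
  have h1 : ti (T i) x = 1 := by unfold ti; rw [if_pos hs]
  rw [h1, one_mul]
  set A := ((U \ dom (T i)).powerset).filter (fun J => uu T i (flp J x) = 1) with hA
  have h2 : ∑ J ∈ (U \ dom (T i)).powerset, b ^ J.card * uu T i (flp J x) =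
      ∑ J ∈ A, b ^ J.card := by
    rw [hA, Finset.sum_filter]
    refine Finset.sum_congr rfl fun J _ => ?_
    rcases uu_zero_or T i (flp J x) with h | h
    · rw [h, mul_zero, if_neg zero_ne_one]
    · rw [h, mul_one, if_pos rfl]
  have h3 : (∑ J ∈ A, b ^ J.card) * (1 + b) ^ (Uᶜ).card ≤
      ∑ Z ∈ (univ : Finset (Finset (Fin n))).filter (fun Z => Fst T x Z i), b ^ Z.card := by
    rw [← sum_pow_card b Uᶜ, Finset.sum_mul_sum, ← Finset.sum_product']
    have hJ : ∀ J ∈ A, J ⊆ U \ dom (T i) ∧ uu T i (flp J x) = 1 := by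
      intro J hJ
      rw [hA, Finset.mem_filter, Finset.mem_powerset] at hJ
      exact hJ
    have hcard : ∀ q ∈ A ×ˢ (Uᶜ).powerset, b ^ q.1.card * b ^ q.2.card = b ^ (q.1 ∪ q.2).card := by
      intro q hq
      rw [Finset.mem_product, Finset.mem_powerset] at hq
      have hd : Disjoint q.1 q.2 := by
        rw [Finset.disjoint_left]
        intro a ha ha'
        have h4 := (hJ _ hq.1).1 ha
        have h5 := hq.2 ha'
        rw [Finset.mem_sdiff] at h4
        rw [Finset.mem_compl] at h5
        exact h5 h4.1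
      rw [Finset.card_union_of_disjoint hd, pow_add]
    rw [Finset.sum_congr rfl hcard]
    have hinj : Set.InjOn (fun q : Finset (Fin n) × Finset (Fin n) => q.1 ∪ q.2)
        (A ×ˢ (Uᶜ).powerset : Finset (Finset (Fin n) × Finset (Fin n))) := by
      rintro ⟨J, Y⟩ hq ⟨J', Y'⟩ hq' h
      rw [Finset.mem_coe, Finset.mem_product, Finset.mem_powerset] at hq hq'
      dsimp only at hq hq' h
      have key : ∀ (J Y : Finset (Fin n)), J ∈ A → Y ⊆ Uᶜ →
          (J ∪ Y) ∩ U = J ∧ (J ∪ Y) \ U = Y := by
        intro J Y hJA hY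
        have h4 := (hJ _ hJA).1
        constructor
        · ext a
          rw [Finset.mem_inter, Finset.mem_union]
          constructor
          · rintro ⟨h5 | h5, h6⟩
            · exact h5
            · exact absurd h6 (Finset.mem_compl.1 (hY h5))
          · intro h5
            exact ⟨Or.inl h5, (Finset.mem_sdiff.1 (h4 h5)).1⟩
        · ext a
          rw [Finset.mem_sdiff, Finset.mem_union]
          constructor
          · rintro ⟨h5 | h5, h6⟩
            · exact absurd (Finset.mem_sdiff.1 (h4 h5)).1 h6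
            · exact h5
          · intro h5
            exact ⟨Or.inr h5, Finset.mem_compl.1 (hY h5)⟩
      obtain ⟨e1, e2⟩ := key J Y hq.1 hq.2
      obtain ⟨e1', e2'⟩ := key J' Y' hq'.1 hq'.2
      rw [h] at e1 e2
      rw [e1'] at e1
      rw [e2'] at e2
      rw [e1, e2]
    rw [← Finset.sum_image (f := fun Z : Finset (Fin n) => b ^ Z.card) hinj]
    refine Finset.sum_le_sum_of_subset_of_nonneg ?_ (fun Z _ _ => by positivity)
    intro Z hZ
    obtain ⟨⟨J, Y⟩, hq, rfl⟩ := Finset.mem_image.1 hZ
    rw [Finset.mem_product, Finset.mem_powerset] at hq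
    dsimp only at hq
    obtain ⟨hJU, hu⟩ := hJ J hq.1
    rw [Finset.mem_filter]
    refine ⟨mem_univ _, hs, ?_, ?_⟩
    · rw [Finset.disjoint_left]
      intro a ha ha'
      rcases Finset.mem_union.1 ha' with h5 | h5
      · exact (Finset.mem_sdiff.1 (hJU h5)).2 ha
      · exact Finset.mem_compl.1 (hq.2 h5) (hU ha)
    · intro l hl hsl hd
      have hdJ : Disjoint (dom (T l)) J := hd.mono_right Finset.subset_union_left
      have hdi : Disjoint (dom (T i)) J := by
        rw [Finset.disjoint_left]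
        intro a ha ha'
        exact (Finset.mem_sdiff.1 (hJU ha')).2 ha
      have h5 : uu T i (flp J x) = 0 := by
        unfold uu
        rw [ow_eq_of_sat (sat_flp hdi hs), if_pos ⟨l, hl, sat_flp hdJ hsl⟩]
      rw [h5] at hu
      exact zero_ne_one hu
  have hn : U.card + (Uᶜ).card = n := by
    rw [Finset.card_add_card_compl, Fintype.card_fin]
  rw [h2]
  unfold pI
  rw [← Finset.sum_div]
  have h6 : (1 + b) ^ n = (1 + b) ^ U.card * (1 + b) ^ (Uᶜ).card := by rw [← pow_add, hn]
  rw [h6, mul_div_assoc', mul_div_mul_left _ _ (by positivity), le_div_iff₀ (by positivity)]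
  exact h3

end Pool.Agent.Work.MP_56168e_lc.OS
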