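import Mathlib
import Pool.Agent.Work.MP_56168e_lc.OS.Defs

set_option autoImplicit false

/-!
Unitarity of `cm`.  PROOFS.  cm_indep: fc g S = 0 if S meets D (`indep_fc`), otherwise
S ∩ V = S ∩ (V \ D).  cm_unitary: expand both sides as double sums over S, S' of
z^.. conj(z)^.. fc g S fc g' S' * ∑_x h x chi S x chi S' x; the last sum is 2^n * fc h (symmDiff S S')
(`chi_mul`), which is 0 by `indep_fc` unless symmDiff S S' is disjoint from V, i.e. S ∩ V = S' ∩ V;
then z^|S| conj(z)^|S'| = z^|S ∩ Vᶜ| conj(z)^|S' ∩ Vᶜ| * |z|^(2 |S ∩ V|).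
-/

namespace Pool.Agent.Work.MP_56168e_lc.OS

open Finset

variable {n s : ℕ}

theorem cm_indep {D : Finset (Fin n)} {g : Cube n → ℝ} (h : Indep D g) (V : Finset (Fin n))
    (z : ℂ) (x : Cube n) : cm V z g x = cm (V \ D) z g x := by
  unfold cm
  refine Finset.sum_congr rfl fun S _ => ?_
  by_cases hS : Disjoint S D
  · have e : S ∩ V = S ∩ (V \ D) := by
      ext a
      rw [Finset.mem_inter, Finset.mem_inter, Finset.mem_sdiff]
      constructor
      · rintro ⟨h1, h2⟩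
        exact ⟨h1, h2, Finset.disjoint_left.1 hS h1⟩
      · rintro ⟨h1, h2, -⟩
        exact ⟨h1, h2⟩
    rw [e]
  · rw [indep_fc h hS, zero_mul, Complex.ofReal_zero, mul_zero, mul_zero]

private theorem dbl (V : Finset (Fin n)) (z : ℂ) (h g g' : Cube n → ℝ) :
    ∑ x, ((h x : ℝ) : ℂ) * (cm V z g x * (starRingEnd ℂ) (cm V z g' x)) =
      ∑ S : Finset (Fin n), ∑ S' : Finset (Fin n),
        (z ^ (S ∩ V).card * (starRingEnd ℂ) z ^ (S' ∩ V).card) *
          ((fc g S * fc g' S' * ∑ x, h x * (chi S x * chi S' x) : ℝ) : ℂ) := by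
  have h1 : ∀ x, ((h x : ℝ) : ℂ) * (cm V z g x * (starRingEnd ℂ) (cm V z g' x)) =
      ∑ S : Finset (Fin n), ∑ S' : Finset (Fin n), ((h x : ℝ) : ℂ) *
        ((z ^ (S ∩ V).card * ((fc g S * chi S x : ℝ) : ℂ)) *
        ((starRingEnd ℂ) z ^ (S' ∩ V).card * ((fc g' S' * chi S' x : ℝ) : ℂ))) := by
    intro x
    unfold cm
    rw [map_sum, Finset.sum_mul_sum, Finset.mul_sum]
    refine Finset.sum_congr rfl fun S _ => ?_
    rw [Finset.mul_sum]
    refine Finset.sum_congr rfl fun S' _ => ?_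
    rw [map_mul, map_pow, Complex.conj_ofReal]
  rw [Finset.sum_congr rfl fun x _ => h1 x, Finset.sum_comm]
  refine Finset.sum_congr rfl fun S _ => ?_
  rw [Finset.sum_comm]
  refine Finset.sum_congr rfl fun S' _ => ?_
  rw [Complex.ofReal_mul, Complex.ofReal_sum, Finset.mul_sum, Finset.mul_sum]
  refine Finset.sum_congr rfl fun x _ => ?_
  push_cast
  ring

theorem cm_unitary {z : ℂ} (hz : ‖z‖ = 1) {V : Finset (Fin n)} {h : Cube n → ℝ} (hh : Indep V h)
    (g g' : Cube n → ℝ) :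
    ∑ x, ((h x : ℝ) : ℂ) * (cm univ z g x * (starRingEnd ℂ) (cm univ z g' x)) =
      ∑ x, ((h x : ℝ) : ℂ) * (cm Vᶜ z g x * (starRingEnd ℂ) (cm Vᶜ z g' x)) := by
  rw [dbl, dbl]
  refine Finset.sum_congr rfl fun S _ => Finset.sum_congr rfl fun S' _ => ?_
  have e1 : ∑ x, h x * (chi S x * chi S' x) = 2 ^ n * fc h (symmDiff S S') := by
    unfold fc ex
    rw [mul_div_cancel₀ _ (by positivity)]
    exact Finset.sum_congr rfl fun x _ => by rw [chi_mul]
  rw [e1]
  by_cases hd : Disjoint (symmDiff S S') V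
  · have e2 : S ∩ V = S' ∩ V := by
      ext a
      rw [Finset.mem_inter, Finset.mem_inter]
      constructor
      · rintro ⟨h1, h2⟩
        refine ⟨?_, h2⟩
        by_contra h3
        exact Finset.disjoint_left.1 hd (Finset.mem_symmDiff.2 (Or.inl ⟨h1, h3⟩)) h2
      · rintro ⟨h1, h2⟩
        refine ⟨?_, h2⟩
        by_contra h3
        exact Finset.disjoint_left.1 hd (Finset.mem_symmDiff.2 (Or.inr ⟨h1, h3⟩)) h2
    have e3 : ∀ R : Finset (Fin n), (R ∩ univ).card = (R ∩ Vᶜ).card + (R ∩ V).card := by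
      intro R
      rw [Finset.inter_univ, ← Finset.card_inter_add_card_sdiff R V, add_comm]
      congr 2
      ext a
      simp [Finset.mem_sdiff]
    have e4 : z * (starRingEnd ℂ) z = 1 := by
      rw [Complex.mul_conj, Complex.normSq_eq_norm_sq, hz]
      norm_num
    rw [e3 S, e3 S', ← e2, pow_add, pow_add]
    have e5 : z ^ (S ∩ Vᶜ).card * z ^ (S ∩ V).card *
        ((starRingEnd ℂ) z ^ (S' ∩ Vᶜ).card * (starRingEnd ℂ) z ^ (S ∩ V).card) =
        z ^ (S ∩ Vᶜ).card * (starRingEnd ℂ) z ^ (S' ∩ Vᶜ).card *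
          (z * (starRingEnd ℂ) z) ^ (S ∩ V).card := by
      rw [mul_pow]
      ring
    rw [e5, e4, one_pow, mul_one]
  · rw [indep_fc hh hd]
    simp

end Pool.Agent.Work.MP_56168e_lc.OS
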