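import Mathlib
import Pool.Agent.Work.MP_56168e_lc.OS.CP
import Pool.Agent.Work.MP_56168e_lc.OS.Cmu

set_option autoImplicit false

/-!
Norm bound.  PROOF.  b = ‖1 - z‖ / 2.  ‖Qz T z x‖^2 is the (real) double sum over i, l of
ti_i ti_l cm univ u_i * conj (cm univ u_l).  Sum over x; for fixed i, l the weight
h = ti (T i) * ti (T l) is independent of V = (dom (T i) ∪ dom (T l))ᶜ, so by cm_unitary univ can be
replaced by Vᶜ = U = dom (T i) ∪ dom (T l).  By cm_indep and indep_uu, cm U z (uu T i) =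
cm (U \ dom (T i)) z (uu T i), by norm_cm_le and flip_le_pI
ti (T i) x * ‖cm U z (uu T i) x‖ ≤ (1+b)^(2W) * pI T b x i (|U| ≤ 2W), the same for l (U contains
dom (T l)).  So 2^n E ‖Q‖^2 ≤ ∑_x ∑_{i,l} (1+b)^(4W) pI_i pI_l = (1+b)^(4W) ∑_x (∑_i pI_i)^2
≤ (1+b)^(4W) ∑_x dn x^2 and dn^2 = dn.
-/

namespace Pool.Agent.Work.MP_56168e_lc.OS

open Finset

variable {n s : ℕ}

lemma ti_norm_cm_le (T : Fin s → PA n) {z : ℂ} (hz : ‖z‖ = 1) (x : Cube n) (i : Fin s)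
    {U : Finset (Fin n)} (hU : dom (T i) ⊆ U) {m : ℕ} (hm : U.card ≤ m) :
    ti (T i) x * ‖cm U z (uu T i) x‖ ≤ (1 + ‖1 - z‖ / 2) ^ m * pI T (‖1 - z‖ / 2) x i := by
  have hb0 : 0 ≤ ‖1 - z‖ / 2 := by positivity
  rw [cm_indep (indep_uu T i) U z x]
  have h1 := norm_cm_le (U \ dom (T i)) hz (uu_nonneg T i) x
  have h2 := flip_le_pI T hb0 x i hU
  have h3 : ti (T i) x * ‖cm (U \ dom (T i)) z (uu T i) x‖ ≤
      ti (T i) x * ∑ J ∈ (U \ dom (T i)).powerset,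
        (‖1 - z‖ / 2) ^ J.card * uu T i (flp J x) :=
    mul_le_mul_of_nonneg_left h1 (ti_nonneg _ _)
  refine h3.trans (h2.trans ?_)
  refine mul_le_mul_of_nonneg_right ?_ (pI_nonneg T hb0 x i)
  exact pow_le_pow_right₀ (by linarith) hm

theorem Q_norm (T : Fin s → PA n) {W : ℕ} (hW : ∀ i, (dom (T i)).card ≤ W) {z : ℂ}
    (hz : ‖z‖ = 1) :
    ex (fun x => ‖Qz T z x‖ ^ 2) ≤ (1 + ‖1 - z‖ / 2) ^ (4 * W) * ex (dn T) := by
  have hb0 : 0 ≤ ‖1 - z‖ / 2 := by positivity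
  have key : ∀ i l, ‖∑ x, ((ti (T i) x * ti (T l) x : ℝ) : ℂ) *
      (cm univ z (uu T i) x * (starRingEnd ℂ) (cm univ z (uu T l) x))‖ ≤
      ∑ x, (1 + ‖1 - z‖ / 2) ^ (4 * W) *
        (pI T (‖1 - z‖ / 2) x i * pI T (‖1 - z‖ / 2) x l) := by
    intro i l
    have hind : Indep (dom (T i) ∪ dom (T l))ᶜ (fun x => ti (T i) x * ti (T l) x) := by
      intro x y hxy
      have h1 : Indep (dom (T i) ∪ dom (T l))ᶜ (ti (T i)) := by
        refine indep_ti (T i) ?_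
        rw [Finset.disjoint_left]
        intro a ha hb
        rw [mem_compl, mem_union, not_or] at hb
        exact hb.1 ha
      have h2 : Indep (dom (T i) ∪ dom (T l))ᶜ (ti (T l)) := by
        refine indep_ti (T l) ?_
        rw [Finset.disjoint_left]
        intro a ha hb
        rw [mem_compl, mem_union, not_or] at hb
        exact hb.2 ha
      simp only
      rw [h1 x y hxy, h2 x y hxy]
    rw [cm_unitary hz hind (uu T i) (uu T l), compl_compl]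
    refine (norm_sum_le _ _).trans (sum_le_sum fun x _ => ?_)
    rw [norm_mul, norm_mul, RCLike.norm_conj, Complex.norm_real, Real.norm_eq_abs,
      abs_of_nonneg (mul_nonneg (ti_nonneg _ _) (ti_nonneg _ _))]
    have hc : (dom (T i) ∪ dom (T l)).card ≤ 2 * W := by
      have := card_union_le (dom (T i)) (dom (T l))
      have h1 := hW i
      have h2 := hW l
      omega
    have e1 := ti_norm_cm_le T hz x i (subset_union_left (s₁ := dom (T i)) (s₂ := dom (T l))) hc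
    have e2 := ti_norm_cm_le T hz x l (subset_union_right (s₁ := dom (T i)) (s₂ := dom (T l))) hc
    have n1 : 0 ≤ ti (T i) x * ‖cm (dom (T i) ∪ dom (T l)) z (uu T i) x‖ :=
      mul_nonneg (ti_nonneg _ _) (norm_nonneg _)
    have n2 : 0 ≤ ti (T l) x * ‖cm (dom (T i) ∪ dom (T l)) z (uu T l) x‖ :=
      mul_nonneg (ti_nonneg _ _) (norm_nonneg _)
    calc ti (T i) x * ti (T l) x * (‖cm (dom (T i) ∪ dom (T l)) z (uu T i) x‖ *
          ‖cm (dom (T i) ∪ dom (T l)) z (uu T l) x‖)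
        = (ti (T i) x * ‖cm (dom (T i) ∪ dom (T l)) z (uu T i) x‖) *
          (ti (T l) x * ‖cm (dom (T i) ∪ dom (T l)) z (uu T l) x‖) := by ring
      _ ≤ ((1 + ‖1 - z‖ / 2) ^ (2 * W) * pI T (‖1 - z‖ / 2) x i) *
          ((1 + ‖1 - z‖ / 2) ^ (2 * W) * pI T (‖1 - z‖ / 2) x l) :=
          mul_le_mul e1 e2 n2 (n1.trans e1)
      _ = _ := by
          rw [show 4 * W = 2 * W + 2 * W by ring, pow_add]
          ring
  have h1 : ((∑ x, ‖Qz T z x‖ ^ 2 : ℝ) : ℂ) = ∑ i, ∑ l, ∑ x,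
      ((ti (T i) x * ti (T l) x : ℝ) : ℂ) *
      (cm univ z (uu T i) x * (starRingEnd ℂ) (cm univ z (uu T l) x)) := by
    have e1 : ∀ x, ((‖Qz T z x‖ ^ 2 : ℝ) : ℂ) = ∑ i, ∑ l,
        ((ti (T i) x * ti (T l) x : ℝ) : ℂ) *
        (cm univ z (uu T i) x * (starRingEnd ℂ) (cm univ z (uu T l) x)) := by
      intro x
      have e2 : ((‖Qz T z x‖ ^ 2 : ℝ) : ℂ) = Qz T z x * (starRingEnd ℂ) (Qz T z x) := by
        rw [Complex.mul_conj, Complex.normSq_eq_norm_sq]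
      rw [e2]
      unfold Qz
      rw [map_sum, sum_mul_sum]
      refine sum_congr rfl fun i _ => sum_congr rfl fun l _ => ?_
      rw [map_mul, Complex.conj_ofReal]
      push_cast
      ring
    push_cast
    push_cast at e1
    rw [sum_congr rfl fun x _ => e1 x, sum_comm]
    refine sum_congr rfl fun i _ => ?_
    rw [sum_comm]
  have h2 : ∑ x, ‖Qz T z x‖ ^ 2 ≤ ∑ i, ∑ l, ∑ x, (1 + ‖1 - z‖ / 2) ^ (4 * W) *
        (pI T (‖1 - z‖ / 2) x i * pI T (‖1 - z‖ / 2) x l) := by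
    have e3 : ∑ x, ‖Qz T z x‖ ^ 2 = ‖((∑ x, ‖Qz T z x‖ ^ 2 : ℝ) : ℂ)‖ := by
      rw [Complex.norm_real, Real.norm_eq_abs, abs_of_nonneg]
      exact sum_nonneg fun x _ => by positivity
    rw [e3, h1]
    refine (norm_sum_le _ _).trans (sum_le_sum fun i _ => ?_)
    exact (norm_sum_le _ _).trans (sum_le_sum fun l _ => key i l)
  have h3 : ∑ i, ∑ l, ∑ x, (1 + ‖1 - z‖ / 2) ^ (4 * W) *
        (pI T (‖1 - z‖ / 2) x i * pI T (‖1 - z‖ / 2) x l) ≤
        (1 + ‖1 - z‖ / 2) ^ (4 * W) * ∑ x, dn T x := by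
    have e4 : ∑ i, ∑ l, ∑ x, (1 + ‖1 - z‖ / 2) ^ (4 * W) *
        (pI T (‖1 - z‖ / 2) x i * pI T (‖1 - z‖ / 2) x l) =
        ∑ x, (1 + ‖1 - z‖ / 2) ^ (4 * W) * (∑ i, pI T (‖1 - z‖ / 2) x i) ^ 2 := by
      rw [sum_congr rfl fun i _ => sum_comm, sum_comm]
      refine sum_congr rfl fun x _ => ?_
      rw [pow_two, sum_mul_sum, mul_sum]
      refine sum_congr rfl fun i _ => ?_
      rw [mul_sum]
    rw [e4, mul_sum]
    refine sum_le_sum fun x _ => mul_le_mul_of_nonneg_left ?_ (by positivity)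
    have f1 := sum_pI_le T hb0 x
    have f2 : 0 ≤ ∑ i, pI T (‖1 - z‖ / 2) x i := sum_nonneg fun i _ => pI_nonneg T hb0 x i
    have f3 := dn_le_one T x
    have f4 := dn_nonneg T x
    nlinarith
  unfold ex
  rw [← mul_div_assoc]
  have : (0 : ℝ) < 2 ^ n := by positivity
  gcongr
  exact h2.trans h3

end Pool.Agent.Work.MP_56168e_lc.OS
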