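import Mathlib
import Pool.Agent.Work.MP_56168e_lc.OS.QN

set_option autoImplicit false

/-!
Second moment of the approximator.  PROOFS.  vv_eq: exchange the finite sums, (z^m).re is the only
non-real factor.  vv_sq: |vv x| ≤ ∑_r w_r ‖Q_r(x)‖.  Put B_r = (1 + b_r)^(2W) ≥ 1 > 0.
Cauchy-Schwarz: (∑ w_r ‖Q_r‖)^2 ≤ (∑ w_r B_r) (∑ w_r ‖Q_r‖^2 / B_r)
(`Finset.sum_mul_sq_le_sq_mul_sq` or `inner_mul_le_norm_mul_norm`, with sqrt (w_r B_r)), take ex and
use Q_norm: ex ‖Q_r‖^2 ≤ B_r^2 ex dn.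
-/

namespace Pool.Agent.Work.MP_56168e_lc.OS

open Finset

variable {n s : ℕ}

lemma cm_univ_re (z : ℂ) (g : Cube n → ℝ) (x : Cube n) :
    (cm univ z g x).re = ∑ S : Finset (Fin n), (z ^ S.card).re * (fc g S * chi S x) := by
  unfold cm
  rw [Complex.re_sum]
  refine sum_congr rfl fun S _ => ?_
  rw [inter_univ, Complex.re_mul_ofReal]

lemma vv_eq (T : Fin s → PA n) {M : ℕ} (w : Fin M → ℝ) (z : Fin M → ℂ) (x : Cube n) :
    vv T (psi w z) x = ∑ r, w r * (Qz T (z r) x).re := by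
  have h1 : ∀ r, (Qz T (z r) x).re =
      ∑ i, ti (T i) x * ∑ S : Finset (Fin n), (z r ^ S.card).re * (fc (uu T i) S * chi S x) := by
    intro r
    unfold Qz
    rw [Complex.re_sum]
    refine sum_congr rfl fun i _ => ?_
    rw [Complex.re_ofReal_mul, cm_univ_re]
  simp only [h1]
  unfold vv mm psi
  simp only [mul_sum, sum_mul]
  rw [sum_comm (s := (univ : Finset (Fin M)))]
  refine sum_congr rfl fun i _ => ?_
  rw [sum_comm (s := (univ : Finset (Fin M)))]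
  refine sum_congr rfl fun S _ => sum_congr rfl fun r _ => ?_
  ring

theorem vv_sq (T : Fin s → PA n) {W K M : ℕ} {η : ℝ} {w : Fin M → ℝ} {z : Fin M → ℂ}
    (hW : ∀ i, (dom (T i)).card ≤ W) (hK : Kern W n K η M w z) :
    ex (fun x => vv T (psi w z) x ^ 2) ≤ (1 + η) ^ 2 * ex (dn T) := by
  obtain ⟨B, hB⟩ : ∃ B : Fin M → ℝ, ∀ r, B r = (1 + ‖1 - z r‖ / 2) ^ (2 * W) := ⟨_, fun _ => rfl⟩
  have hBpos : ∀ r, 0 < B r := fun r => by rw [hB]; positivity
  have hc : ∑ r, w r * B r ≤ 1 + η := by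
    simp only [hB]; exact hK.conc
  have hS0 : 0 ≤ ∑ r, w r * B r := sum_nonneg fun r _ => mul_nonneg (hK.nonneg r) (hBpos r).le
  have hdn : 0 ≤ ex (dn T) := by
    unfold ex
    exact div_nonneg (sum_nonneg fun x _ => dn_nonneg T x) (by positivity)
  have hpt : ∀ x, vv T (psi w z) x ^ 2 ≤
      (∑ r, w r * B r) * ∑ r, w r / B r * ‖Qz T (z r) x‖ ^ 2 := by
    intro x
    rw [vv_eq]
    refine (Finset.sum_sq_le_sum_mul_sum_of_sq_eq_mul univ
      (f := fun r => w r * B r) (g := fun r => w r / B r * (Qz T (z r) x).re ^ 2)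
      (fun r _ => mul_nonneg (hK.nonneg r) (hBpos r).le)
      (fun r _ => mul_nonneg (div_nonneg (hK.nonneg r) (hBpos r).le) (sq_nonneg _)) ?_).trans ?_
    · intro r _
      have := (hBpos r).ne'
      field_simp
    · refine mul_le_mul_of_nonneg_left (sum_le_sum fun r _ => ?_) hS0
      refine mul_le_mul_of_nonneg_left ?_ (div_nonneg (hK.nonneg r) (hBpos r).le)
      rw [← sq_abs (Qz T (z r) x).re]
      exact pow_le_pow_left₀ (abs_nonneg _) (Complex.abs_re_le_norm _) 2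
  have h2 : ex (fun x => vv T (psi w z) x ^ 2) ≤
      (∑ r, w r * B r) * ∑ r, w r / B r * ex (fun x => ‖Qz T (z r) x‖ ^ 2) := by
    have e : (∑ r, w r * B r) * ∑ r, w r / B r * ex (fun x => ‖Qz T (z r) x‖ ^ 2) =
        ex (fun x => (∑ r, w r * B r) * ∑ r, w r / B r * ‖Qz T (z r) x‖ ^ 2) := by
      rw [ex_smul, ex_sum]
      congr 1
      exact sum_congr rfl fun r _ => (ex_smul _ _).symm
    rw [e]
    exact ex_mono hpt
  have h3 : ∑ r, w r / B r * ex (fun x => ‖Qz T (z r) x‖ ^ 2) ≤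
      (∑ r, w r * B r) * ex (dn T) := by
    rw [sum_mul]
    refine sum_le_sum fun r _ => ?_
    have h4 := Q_norm T hW (hK.circle r)
    have h5 : (1 + ‖1 - z r‖ / 2) ^ (4 * W) = B r * B r := by
      rw [hB, ← pow_add]; congr 1; ring
    rw [h5] at h4
    have h6 : 0 ≤ w r / B r := div_nonneg (hK.nonneg r) (hBpos r).le
    refine (mul_le_mul_of_nonneg_left h4 h6).trans (le_of_eq ?_)
    have := (hBpos r).ne'
    field_simp
  calc ex (fun x => vv T (psi w z) x ^ 2)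
      ≤ (∑ r, w r * B r) * ((∑ r, w r * B r) * ex (dn T)) :=
        h2.trans (mul_le_mul_of_nonneg_left h3 hS0)
    _ = (∑ r, w r * B r) ^ 2 * ex (dn T) := by ring
    _ ≤ (1 + η) ^ 2 * ex (dn T) :=
        mul_le_mul_of_nonneg_right (pow_le_pow_left₀ hS0 hc 2) hdn

end Pool.Agent.Work.MP_56168e_lc.OS
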