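import Mathlib
import Pool.Agent.Work.MP_56168e_lc.OS.Uu

set_option autoImplicit false

/-!
Mean, support, spectral norm of the approximator.  PROOFS.  psi_le: |(z^m).re| ≤ 1.
vv_off: dn T x = 0 implies ti (T i) x = 0 for all i.  indep_mm: `indep_fc` and `indep_of_fc`
(fc (mm ψ g) S = ψ |S| fc g S).  vv_ex: ex (ti (T i) * mm ψ (uu T i)) = ex (ti (T i)) * ex (mm ..)
(ex_mul_indep with U = dom (T i)ᶜ or ex_ti_mul), ex (mm ψ g) = ψ 0 * ex g, then back with
ψ 0 = 1 and sum_ti_uu.  nrm_mm: nrm (mm ψ (uu T i)) = ∑_S |ψ |S|| |fc (uu T i) S| where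
fc (uu T i) S = [S = ∅] - fc (fi (el T i)) S; ψ |S| = 0 for K ≤ |S| (≤ n), |ψ| ≤ 1, so it is
≤ 1 + nrm (tr K (fi (el T i))) ≤ 1 + (13 W)^K (fc_tr, conc_nrm).
-/

namespace Pool.Agent.Work.MP_56168e_lc.OS

open Finset

variable {n s : ℕ}

lemma psi_zero {W n K M : ℕ} {η : ℝ} {w : Fin M → ℝ} {z : Fin M → ℂ} (hK : Kern W n K η M w z) :
    psi w z 0 = 1 := by
  unfold psi
  rw [← hK.total]
  exact Finset.sum_congr rfl fun r _ => by rw [pow_zero, Complex.one_re, mul_one]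

lemma psi_le {W n K M : ℕ} {η : ℝ} {w : Fin M → ℝ} {z : Fin M → ℂ} (hK : Kern W n K η M w z)
    (m : ℕ) : |psi w z m| ≤ 1 := by
  unfold psi
  refine (Finset.abs_sum_le_sum_abs _ _).trans ?_
  rw [← hK.total]
  refine Finset.sum_le_sum fun r _ => ?_
  rw [abs_mul, abs_of_nonneg (hK.nonneg r)]
  have h1 : |(z r ^ m).re| ≤ 1 := by
    refine (Complex.abs_re_le_norm _).trans ?_
    rw [norm_pow, hK.circle r, one_pow]
  exact mul_le_of_le_one_right (hK.nonneg r) h1

lemma fc_mm (ψ : ℕ → ℝ) (g : Cube n → ℝ) (S : Finset (Fin n)) :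
    fc (mm ψ g) S = ψ S.card * fc g S := by
  have h1 : mm ψ g = fun x => ∑ Q ∈ (univ : Finset (Finset (Fin n))),
      (fun Q x => (ψ Q.card * fc g Q) * chi Q x) Q x := rfl
  rw [h1, fc_sum]
  have h2 : ∀ Q : Finset (Fin n), fc (fun x => (ψ Q.card * fc g Q) * chi Q x) S =
      if Q = S then ψ S.card * fc g S else 0 := by
    intro Q
    rw [fc_smul, fc_chi]
    split_ifs with h
    · rw [h, mul_one]
    · rw [mul_zero]
  rw [Finset.sum_congr rfl fun Q _ => h2 Q, Finset.sum_ite_eq' univ S, if_pos (mem_univ S)]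

lemma indep_mm (ψ : ℕ → ℝ) {g : Cube n → ℝ} {D : Finset (Fin n)} (h : Indep D g) :
    Indep D (mm ψ g) := by
  refine indep_of_fc fun S hS => ?_
  rw [fc_mm, indep_fc h hS, mul_zero]

lemma vv_off (T : Fin s → PA n) (ψ : ℕ → ℝ) (x : Cube n) (h : dn T x = 0) : vv T ψ x = 0 := by
  unfold vv
  refine Finset.sum_eq_zero fun i _ => ?_
  have h1 : ti (T i) x = 0 := le_antisymm (h ▸ ti_le_dn T i x) (ti_nonneg _ _)
  rw [h1, zero_mul]

lemma vv_ind (T : Fin s → PA n) (ψ : ℕ → ℝ) {D : Finset (Fin n)}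
    (h : ∀ i, Disjoint (dom (T i)) D) : Indep D (vv T ψ) := by
  intro x y hxy
  unfold vv
  refine Finset.sum_congr rfl fun i _ => ?_
  rw [indep_ti (T i) (h i) x y hxy, indep_mm ψ (indep_uu_of T i h) x y hxy]

theorem vv_ex (T : Fin s → PA n) {ψ : ℕ → ℝ} (h : ψ 0 = 1) : ex (vv T ψ) = ex (dn T) := by
  have h1 : ∀ i, ex (fun x => ti (T i) x * mm ψ (uu T i) x) = ex (fun x => ti (T i) x * uu T i x) := by
    intro i
    have hti : Indep (dom (T i))ᶜ (ti (T i)) := indep_ti (T i) disjoint_compl_right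
    have hu : Indep (dom (T i))ᶜᶜ (uu T i) := by
      rw [compl_compl]
      exact indep_uu T i
    rw [ex_mul_indep _ hti (indep_mm ψ hu), ex_mul_indep _ hti hu]
    congr 1
    rw [← fc_empty, ← fc_empty, fc_mm, Finset.card_empty, h, one_mul]
  have h2 : ex (vv T ψ) = ∑ i, ex (fun x => ti (T i) x * mm ψ (uu T i) x) := by
    rw [← ex_sum]
    rfl
  rw [h2, Finset.sum_congr rfl fun i _ => h1 i, ← ex_sum]
  exact ex_congr fun x => sum_ti_uu T x

theorem vv_nrm (T : Fin s → PA n) {W K : ℕ} (hW1 : 1 ≤ W) (hW : ∀ i, (dom (T i)).card ≤ W)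
    {ψ : ℕ → ℝ} (h1 : ∀ m, |ψ m| ≤ 1) (h2 : ∀ m, K ≤ m → m ≤ n → ψ m = 0) :
    nrm (vv T ψ) ≤ s * (1 + (13 * W) ^ K) := by
  have hfc : ∀ i S, fc (uu T i) S = (if S = ∅ then 1 else 0) - fc (fi (el T i)) S := by
    intro i S
    have e : uu T i = fun x => (1 : ℝ) * chi ∅ x + (-1) * fi (el T i) x := by
      funext x
      rw [uu_eq]
      simp [chi]
      ring
    rw [e, fc_add, fc_smul, fc_smul, fc_chi]
    by_cases hS : S = ∅
    · subst hS
      simp
      ring
    · rw [if_neg hS, if_neg (Ne.symm hS)]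
      ring
  have hmm : ∀ i, nrm (mm ψ (uu T i)) ≤ 1 + (13 * W) ^ K := by
    intro i
    have hL : nrm (tr K (fi (el T i))) ≤ (13 * W) ^ K := conc_nrm (el T i) W K hW1 (el_width T i hW)
    have hb : ∀ S : Finset (Fin n), |fc (mm ψ (uu T i)) S| ≤
        (if S = ∅ then 1 else 0) + |fc (tr K (fi (el T i))) S| := by
      intro S
      rw [fc_mm, abs_mul, fc_tr]
      by_cases hS : S.card < K
      · rw [if_pos hS, hfc]
        have h3 : |(if S = ∅ then (1 : ℝ) else 0) - fc (fi (el T i)) S| ≤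
            (if S = ∅ then 1 else 0) + |fc (fi (el T i)) S| := by
          refine (abs_sub _ _).trans ?_
          gcongr
          split_ifs <;> simp
        calc |ψ S.card| * |(if S = ∅ then (1 : ℝ) else 0) - fc (fi (el T i)) S|
            ≤ 1 * |(if S = ∅ then (1 : ℝ) else 0) - fc (fi (el T i)) S| :=
              mul_le_mul_of_nonneg_right (h1 _) (abs_nonneg _)
          _ ≤ _ := by rw [one_mul]; exact h3
      · rw [if_neg hS, h2 S.card (not_lt.1 hS) (by simpa using Finset.card_le_univ S), abs_zero,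
          zero_mul, add_zero]
        split_ifs <;> norm_num
    have hsum : ∑ S : Finset (Fin n), (if S = ∅ then (1 : ℝ) else 0) = 1 := by
      rw [Finset.sum_ite_eq' univ ∅, if_pos (mem_univ _)]
    calc nrm (mm ψ (uu T i)) ≤ ∑ S : Finset (Fin n), ((if S = ∅ then (1 : ℝ) else 0) +
          |fc (tr K (fi (el T i))) S|) := Finset.sum_le_sum fun S _ => hb S
      _ = 1 + nrm (tr K (fi (el T i))) := by
          rw [Finset.sum_add_distrib, hsum]
          rfl
      _ ≤ 1 + (13 * W) ^ K := by linarith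
  have h3 : nrm (vv T ψ) ≤ ∑ i : Fin s, nrm (fun x => ti (T i) x * mm ψ (uu T i) x) :=
    nrm_sum_le univ (fun i x => ti (T i) x * mm ψ (uu T i) x)
  refine h3.trans ?_
  have h4 : ∀ i ∈ (univ : Finset (Fin s)), nrm (fun x => ti (T i) x * mm ψ (uu T i) x) ≤
      1 + (13 * W) ^ K := by
    intro i _
    refine (nrm_mul_le _ _).trans ?_
    calc nrm (ti (T i)) * nrm (mm ψ (uu T i)) ≤ 1 * nrm (mm ψ (uu T i)) :=
          mul_le_mul_of_nonneg_right (nrm_ti (T i)) (nrm_nonneg _)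
      _ ≤ _ := by rw [one_mul]; exact hmm i
  refine (Finset.sum_le_card_nsmul _ _ _ h4).trans ?_
  rw [Finset.card_univ, Fintype.card_fin, nsmul_eq_mul]

end Pool.Agent.Work.MP_56168e_lc.OS
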