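import Mathlib
import Pool.Agent.Work.MP_56168e_lc.OS.Defs

set_option autoImplicit false

/-!
The averaging polynomial.  PROOFS.  norm_G_mul: (1 - z) * ∑_{l<L} z^l = 1 - z^L has norm ≤ 2
(`geom_sum_mul_neg` or similar), so ‖∑‖ * ‖1 - z‖ ≤ 2.
-/

namespace Pool.Agent.Work.MP_56168e_lc.OS

open Finset

lemma norm_G_le (L : ℕ) {z : ℂ} (hz : ‖z‖ = 1) : ‖G L z‖ ≤ 1 := by
  have h : ‖∑ l ∈ range L, z ^ l‖ ≤ L := by
    refine (norm_sum_le _ _).trans ?_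
    simp [hz]
  rw [G, norm_div]
  have h2 : ‖(L : ℂ)‖ = (L : ℝ) := by simp
  rw [h2]
  exact div_le_one_of_le₀ h (Nat.cast_nonneg _)

lemma norm_G_mul (L : ℕ) {z : ℂ} (hz : ‖z‖ = 1) : ‖G L z‖ * (L * (‖1 - z‖ / 2)) ≤ 1 := by
  rcases Nat.eq_zero_or_pos L with rfl | hL
  · simp
  have h2 : ‖(L : ℂ)‖ = (L : ℝ) := by simp
  have hL' : (0 : ℝ) < L := by exact_mod_cast hL
  have h3 : (∑ l ∈ range L, z ^ l) * (1 - z) = 1 - z ^ L := geom_sum_mul_neg z L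
  have h4 : ‖∑ l ∈ range L, z ^ l‖ * ‖1 - z‖ ≤ 2 := by
    rw [← norm_mul, h3]
    refine (norm_sub_le _ _).trans ?_
    rw [norm_pow, hz]
    norm_num
  rw [G, norm_div, h2]
  have h5 : ‖∑ l ∈ range L, z ^ l‖ / (L : ℝ) * (L * (‖1 - z‖ / 2)) =
      ‖∑ l ∈ range L, z ^ l‖ * ‖1 - z‖ / 2 := by
    field_simp
  rw [h5]
  linarith

lemma G_one {L : ℕ} (hL : 1 ≤ L) : G L 1 = 1 := by
  have h : (L : ℂ) ≠ 0 := by exact_mod_cast (by omega : L ≠ 0)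
  simp [G, h]

lemma norm_one_sub_le {z : ℂ} (hz : ‖z‖ = 1) : ‖1 - z‖ / 2 ≤ 1 := by
  have h := norm_sub_le (1 : ℂ) z
  rw [hz, norm_one] at h
  linarith

end Pool.Agent.Work.MP_56168e_lc.OS
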