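import Mathlib
import Pool.Agent.Work.MP_56168e_lc.OS.GF

set_option autoImplicit false

/-!
Pointwise bound of the kernel polynomial.  PROOF.  b = ‖1 - z‖ / 2 ∈ [0, 1].
‖pz‖^2 = ‖G Ls‖^6 * ∏_j ‖G (2^j)‖^(2 (16 W / 2^j + 1)), every factor is ≤ 1.
Case W b ≤ 2: (1+b)^(2W) ≤ exp (2 W b) ≤ exp 4, product ≤ 1.
Case W b > 2: let j be the least natural number with 2 ≤ 2^j b; it exists and j ≤ a0 W because
2^(a0 W) > W (`Nat.lt_pow_succ_log_self`), j ≥ 1 because b ≤ 1, and 2^j b < 4 by minimality.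
Then ‖G (2^j)‖ ≤ 1/2 (norm_G_mul), and (16 W / 2^j + 1 : ℕ) ≥ 16 W / 2^j ≥ 4 W b as reals, so the
product is ≤ (1/2)^(8 W b) (real power) ≤ exp (-(2 W b)), and (1+b)^(2W) ≤ exp (2 W b).
-/

namespace Pool.Agent.Work.MP_56168e_lc.OS

open Finset

private lemma one_add_pow_le {b : ℝ} (hb : 0 ≤ b) (N : ℕ) : (1 + b) ^ N ≤ Real.exp (N * b) := by
  have h1 : 1 + b ≤ Real.exp b := by
    have := Real.add_one_le_exp b
    linarith
  calc (1 + b) ^ N ≤ Real.exp b ^ N := pow_le_pow_left₀ (by linarith) h1 N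
    _ = Real.exp (N * b) := by rw [← Real.exp_nat_mul]

private lemma prod_bound {W : ℕ} (hW : 1 ≤ W) {z : ℂ} (hz : ‖z‖ = 1) :
    (∏ j ∈ Icc 1 (a0 W), ‖G (2 ^ j) z‖ ^ (16 * W / 2 ^ j + 1)) ^ 2 *
      (1 + ‖1 - z‖ / 2) ^ (2 * W) ≤ Real.exp 4 := by
  obtain ⟨b, hb⟩ : ∃ b : ℝ, b = ‖1 - z‖ / 2 := ⟨_, rfl⟩
  have hb0 : 0 ≤ b := by rw [hb]; positivity
  have hb1 : b ≤ 1 := by rw [hb]; exact norm_one_sub_le hz
  rw [← hb]
  have hf0 : ∀ j, 0 ≤ ‖G (2 ^ j) z‖ ^ (16 * W / 2 ^ j + 1) := fun j => by positivity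
  have hf1 : ∀ j, ‖G (2 ^ j) z‖ ^ (16 * W / 2 ^ j + 1) ≤ 1 := fun j =>
    pow_le_one₀ (norm_nonneg _) (norm_G_le _ hz)
  have hexp : (1 + b) ^ (2 * W) ≤ Real.exp (2 * (W * b)) := by
    have h := one_add_pow_le hb0 (2 * W)
    refine h.trans (le_of_eq ?_)
    congr 1
    push_cast
    ring
  have hpos : 0 ≤ (1 + b) ^ (2 * W) := by positivity
  have hP0 : 0 ≤ ∏ j ∈ Icc 1 (a0 W), ‖G (2 ^ j) z‖ ^ (16 * W / 2 ^ j + 1) :=
    Finset.prod_nonneg fun j _ => hf0 j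
  rcases le_or_gt ((W : ℝ) * b) 2 with hWb | hWb
  · have hP1 : ∏ j ∈ Icc 1 (a0 W), ‖G (2 ^ j) z‖ ^ (16 * W / 2 ^ j + 1) ≤ 1 :=
      Finset.prod_le_one (fun j _ => hf0 j) (fun j _ => hf1 j)
    calc (∏ j ∈ Icc 1 (a0 W), ‖G (2 ^ j) z‖ ^ (16 * W / 2 ^ j + 1)) ^ 2 * (1 + b) ^ (2 * W)
        ≤ 1 * (1 + b) ^ (2 * W) := by
          refine mul_le_mul_of_nonneg_right ?_ hpos
          exact pow_le_one₀ hP0 hP1
      _ ≤ Real.exp (2 * (W * b)) := by rw [one_mul]; exact hexp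
      _ ≤ Real.exp 4 := Real.exp_le_exp.2 (by linarith)
  · have hWpos : (0 : ℝ) < W := by exact_mod_cast hW
    have hbpos : 0 < b := by
      rcases hb0.lt_or_eq with h | h
      · exact h
      · rw [← h, mul_zero] at hWb
        linarith
    have hlog : W < 2 ^ (a0 W) := Nat.lt_pow_succ_log_self (by norm_num) W
    have hex : ∃ j : ℕ, (2 : ℝ) ≤ 2 ^ j * b := by
      refine ⟨a0 W, ?_⟩
      have h1 : (W : ℝ) < 2 ^ (a0 W) := by exact_mod_cast hlog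
      have h2 : (W : ℝ) * b ≤ 2 ^ (a0 W) * b := mul_le_mul_of_nonneg_right h1.le hb0
      linarith
    classical
    obtain ⟨j, hj, hjmin⟩ : ∃ j : ℕ, (2 : ℝ) ≤ 2 ^ j * b ∧ ∀ m < j, ¬ (2 : ℝ) ≤ 2 ^ m * b :=
      ⟨Nat.find hex, Nat.find_spec hex, fun m hm => Nat.find_min hex hm⟩
    have hja : j ≤ a0 W := by
      by_contra hn
      push Not at hn
      refine hjmin (a0 W) hn ?_
      have h1 : (W : ℝ) < 2 ^ (a0 W) := by exact_mod_cast hlog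
      have h2 : (W : ℝ) * b ≤ 2 ^ (a0 W) * b := mul_le_mul_of_nonneg_right h1.le hb0
      linarith
    have hj1 : 1 ≤ j := by
      by_contra hn
      have h0 : j = 0 := by omega
      rw [h0, pow_zero, one_mul] at hj
      linarith
    have hj4 : (2 : ℝ) ^ j * b < 4 := by
      have h1 := hjmin (j - 1) (by omega)
      push Not at h1
      have h2 : (2 : ℝ) ^ j = 2 * 2 ^ (j - 1) := by
        rw [← pow_succ']
        congr 1
        omega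
      rw [h2]
      linarith
    obtain ⟨N, hN⟩ : ∃ N : ℕ, N = 16 * W / 2 ^ j + 1 := ⟨_, rfl⟩
    have hNW : (4 : ℝ) * (W * b) ≤ N := by
      have h1 : 16 * W < 2 ^ j * N := by
        rw [hN]
        exact Nat.lt_mul_div_succ _ (by positivity)
      have h2 : (16 : ℝ) * W ≤ 2 ^ j * N := by
        have : ((16 * W : ℕ) : ℝ) ≤ ((2 ^ j * N : ℕ) : ℝ) := by exact_mod_cast h1.le
        push_cast at this
        exact this
      have h3 : (16 : ℝ) * W * b ≤ 2 ^ j * N * b := mul_le_mul_of_nonneg_right h2 hb0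
      have h4 : (2 : ℝ) ^ j * b * N ≤ 4 * N := mul_le_mul_of_nonneg_right hj4.le (Nat.cast_nonneg N)
      nlinarith
    have hGj : ‖G (2 ^ j) z‖ ≤ 1 / 2 := by
      have h1 := norm_G_mul (2 ^ j) hz
      rw [← hb] at h1
      push_cast at h1
      have h2 : ‖G (2 ^ j) z‖ * 2 ≤ ‖G (2 ^ j) z‖ * (2 ^ j * b) :=
        mul_le_mul_of_nonneg_left hj (norm_nonneg _)
      linarith
    have hfj : ‖G (2 ^ j) z‖ ^ (16 * W / 2 ^ j + 1) ≤ Real.exp (-(1 / 2) * N) := by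
      rw [← hN]
      have h1 : (1 : ℝ) / 2 ≤ Real.exp (-(1 / 2)) := by
        have := Real.add_one_le_exp (-(1 / 2 : ℝ))
        linarith
      calc ‖G (2 ^ j) z‖ ^ N ≤ (Real.exp (-(1 / 2))) ^ N :=
            pow_le_pow_left₀ (norm_nonneg _) (hGj.trans h1) N
        _ = Real.exp (-(1 / 2) * N) := by rw [← Real.exp_nat_mul]; ring_nf
    have hP : ∏ j ∈ Icc 1 (a0 W), ‖G (2 ^ j) z‖ ^ (16 * W / 2 ^ j + 1) ≤
        Real.exp (-(1 / 2) * N) := by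
      have hmem : j ∈ Icc 1 (a0 W) := Finset.mem_Icc.2 ⟨hj1, hja⟩
      rw [← Finset.mul_prod_erase _ _ hmem]
      have h1 : ∏ x ∈ (Icc 1 (a0 W)).erase j, ‖G (2 ^ x) z‖ ^ (16 * W / 2 ^ x + 1) ≤ 1 :=
        Finset.prod_le_one (fun j _ => hf0 j) (fun j _ => hf1 j)
      have h2 : 0 ≤ ∏ x ∈ (Icc 1 (a0 W)).erase j, ‖G (2 ^ x) z‖ ^ (16 * W / 2 ^ x + 1) :=
        Finset.prod_nonneg fun j _ => hf0 j
      calc _ ≤ Real.exp (-(1 / 2) * N) * 1 := mul_le_mul hfj h1 h2 (Real.exp_pos _).le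
        _ = _ := mul_one _
    calc (∏ j ∈ Icc 1 (a0 W), ‖G (2 ^ j) z‖ ^ (16 * W / 2 ^ j + 1)) ^ 2 * (1 + b) ^ (2 * W)
        ≤ (Real.exp (-(1 / 2) * N)) ^ 2 * Real.exp (2 * (W * b)) :=
          mul_le_mul (pow_le_pow_left₀ hP0 hP 2) hexp hpos (by positivity)
      _ = Real.exp (-N + 2 * (W * b)) := by
          rw [← Real.exp_nat_mul, ← Real.exp_add]
          congr 1
          push_cast
          ring
      _ ≤ Real.exp 4 := Real.exp_le_exp.2 (by nlinarith)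

theorem pz_bound {W q : ℕ} (hW : 1 ≤ W) {z : ℂ} (hz : ‖z‖ = 1) :
    ‖pz W q z‖ ^ 2 * (1 + ‖1 - z‖ / 2) ^ (2 * W) ≤ Real.exp 4 * ‖G (Ls W q) z‖ ^ 6 := by
  have h1 : ‖pz W q z‖ = ‖G (Ls W q) z‖ ^ 3 *
      ∏ j ∈ Icc 1 (a0 W), ‖G (2 ^ j) z‖ ^ (16 * W / 2 ^ j + 1) := by
    unfold pz
    rw [norm_mul, norm_pow, norm_prod]
    congr 1
    refine Finset.prod_congr rfl fun j _ => ?_
    rw [norm_pow]
  have h2 := prod_bound hW hz
  have h3 : 0 ≤ ‖G (Ls W q) z‖ ^ 6 := by positivity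
  rw [h1]
  calc (‖G (Ls W q) z‖ ^ 3 * ∏ j ∈ Icc 1 (a0 W), ‖G (2 ^ j) z‖ ^ (16 * W / 2 ^ j + 1)) ^ 2 *
        (1 + ‖1 - z‖ / 2) ^ (2 * W)
      = ((∏ j ∈ Icc 1 (a0 W), ‖G (2 ^ j) z‖ ^ (16 * W / 2 ^ j + 1)) ^ 2 *
        (1 + ‖1 - z‖ / 2) ^ (2 * W)) * ‖G (Ls W q) z‖ ^ 6 := by ring
    _ ≤ Real.exp 4 * ‖G (Ls W q) z‖ ^ 6 := mul_le_mul_of_nonneg_right h2 h3

lemma pz_one {W q : ℕ} (hW : 1 ≤ W) (hq : 1 ≤ q) : pz W q 1 = 1 := by
  have h1 : 1 ≤ a0 W := Nat.le_add_left _ _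
  have h2 : 1 ≤ Ls W q := by
    unfold Ls
    have : 0 < 64 * W * a0 W * q ^ 2 := by positivity
    omega
  unfold pz
  rw [G_one h2, one_pow, one_mul]
  refine Finset.prod_eq_one fun j _ => ?_
  rw [G_one (Nat.one_le_two_pow), one_pow]

end Pool.Agent.Work.MP_56168e_lc.OS
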