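import Mathlib
import Pool.Agent.Work.MP_56168e_lc.OS.Defs

set_option autoImplicit false

/-!
Coefficients of the kernel polynomial.  PROOF.  Let GP L : Polynomial ℝ = C (1/L) * ∑_{l<L} X^l,
natDegree ≤ L - 1, and P = GP (Ls)^3 * ∏_{j ∈ Icc 1 a0} GP (2^j)^(16 W / 2^j + 1); pz W q z is the
evaluation of P at z (`Polynomial.eval₂` / `aeval`), c k = P.coeff k, and
natDegree P ≤ 3 (Ls - 1) + ∑_{j=1}^{a0} (16 W / 2^j + 1) * (2^j - 1)
≤ 3 Ls - 3 + 16 W a0 + 2^(a0+1) ≤ 3 Ls - 3 + 20 W a0 < 4 Ls, using 2^(a0) ≤ 2 W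
(`Nat.pow_log_le_self`) and Ls = 64 W a0 q^2 ≥ 20 W a0.
-/

namespace Pool.Agent.Work.MP_56168e_lc.OS

open Finset

open Polynomial in
private noncomputable def GP (L : ℕ) : Polynomial ℝ :=
  C (1 / (L : ℝ)) * ∑ l ∈ range L, X ^ l

private lemma GP_deg (L : ℕ) : (GP L).natDegree ≤ L - 1 := by
  refine (Polynomial.natDegree_C_mul_le _ _).trans ?_
  refine Polynomial.natDegree_sum_le_of_forall_le _ _ fun l hl => ?_
  rw [Polynomial.natDegree_X_pow]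
  have := mem_range.1 hl
  omega

private lemma GP_eval (L : ℕ) (z : ℂ) :
    Polynomial.eval₂ (algebraMap ℝ ℂ) z (GP L) = G L z := by
  rw [GP, Polynomial.eval₂_mul, Polynomial.eval₂_C, Polynomial.eval₂_finsetSum, G]
  simp only [Polynomial.eval₂_X_pow]
  have h : (algebraMap ℝ ℂ) (1 / (L : ℝ)) = (L : ℂ)⁻¹ := by simp
  rw [h, div_eq_mul_inv, mul_comm]

private noncomputable def PP (W q : ℕ) : Polynomial ℝ :=
  GP (Ls W q) ^ 3 * ∏ j ∈ Icc 1 (a0 W), GP (2 ^ j) ^ (16 * W / 2 ^ j + 1)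

private lemma PP_eval (W q : ℕ) (z : ℂ) :
    Polynomial.eval₂ (algebraMap ℝ ℂ) z (PP W q) = pz W q z := by
  rw [PP, Polynomial.eval₂_mul, Polynomial.eval₂_pow, Polynomial.eval₂_finsetProd, pz, GP_eval]
  congr 1
  refine prod_congr rfl fun j _ => ?_
  rw [Polynomial.eval₂_pow, GP_eval]

private lemma sum_two_pow (a : ℕ) : ∑ j ∈ Icc 1 a, 2 ^ j ≤ 2 ^ (a + 1) := by
  induction a with
  | zero => simp
  | succ a ih =>
    rw [← Finset.insert_Icc_right_eq_Icc_add_one (by omega), sum_insert (by simp)]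
    refine (Nat.add_le_add_left ih _).trans (le_of_eq ?_)
    ring

private lemma PP_deg {W q : ℕ} (hW : 1 ≤ W) (hq : 1 ≤ q) :
    (PP W q).natDegree < 4 * Ls W q := by
  have h1 : (GP (Ls W q) ^ 3).natDegree ≤ 3 * (Ls W q - 1) :=
    (Polynomial.natDegree_pow_le).trans (Nat.mul_le_mul_left _ (GP_deg _))
  have h2 : (∏ j ∈ Icc 1 (a0 W), GP (2 ^ j) ^ (16 * W / 2 ^ j + 1)).natDegree ≤
      ∑ j ∈ Icc 1 (a0 W), (16 * W + 2 ^ j) := by
    refine (Polynomial.natDegree_prod_le _ _).trans (sum_le_sum fun j _ => ?_)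
    refine (Polynomial.natDegree_pow_le).trans ?_
    refine (Nat.mul_le_mul_left _ (GP_deg _)).trans ?_
    rw [add_mul, one_mul]
    refine add_le_add ?_ (Nat.sub_le _ _)
    exact (Nat.mul_le_mul_left _ (Nat.sub_le _ _)).trans (Nat.div_mul_le_self _ _)
  have h3 : ∑ j ∈ Icc 1 (a0 W), (16 * W + 2 ^ j) ≤ 20 * W * a0 W := by
    rw [sum_add_distrib, sum_const, Nat.card_Icc, smul_eq_mul]
    have h4 := sum_two_pow (a0 W)
    have h5 : 2 ^ (a0 W + 1) ≤ 4 * W := by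
      have h6 : 2 ^ Nat.log 2 W ≤ W := Nat.pow_log_le_self 2 (by omega)
      have h7 : 2 ^ (a0 W + 1) = 4 * 2 ^ Nat.log 2 W := by
        rw [a0]
        ring
      omega
    have h8 : 1 ≤ a0 W := by rw [a0]; omega
    have h9 : 4 * W ≤ 4 * W * a0 W := Nat.le_mul_of_pos_right _ h8
    have h10 : (a0 W + 1 - 1) * (16 * W) = 16 * W * a0 W := by
      rw [Nat.add_sub_cancel]
      ring
    have h11 : 20 * W * a0 W = 16 * W * a0 W + 4 * W * a0 W := by ring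
    omega
  have h4 : 20 * W * a0 W ≤ Ls W q := by
    rw [Ls]
    have h5 : 1 ≤ q ^ 2 := Nat.one_le_pow _ _ hq
    calc 20 * W * a0 W ≤ 64 * W * a0 W := by gcongr; norm_num
      _ ≤ 64 * W * a0 W * q ^ 2 := Nat.le_mul_of_pos_right _ h5
  have h5 : 1 ≤ Ls W q := by
    refine le_trans ?_ h4
    have h8 : 1 ≤ a0 W := by rw [a0]; omega
    have : 1 ≤ W * a0 W := Nat.mul_pos hW h8
    calc 1 ≤ W * a0 W := this
      _ ≤ 20 * (W * a0 W) := by omega
      _ = 20 * W * a0 W := by ring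
  have h6 := Polynomial.natDegree_mul_le (p := GP (Ls W q) ^ 3)
    (q := ∏ j ∈ Icc 1 (a0 W), GP (2 ^ j) ^ (16 * W / 2 ^ j + 1))
  change (PP W q).natDegree ≤ _ at h6
  omega

theorem pz_coeff {W q : ℕ} (hW : 1 ≤ W) (hq : 1 ≤ q) :
    ∃ c : ℕ → ℝ, ∀ z : ℂ, pz W q z = ∑ k ∈ range (4 * Ls W q), (c k : ℂ) * z ^ k := by
  refine ⟨fun k => (PP W q).coeff k, fun z => ?_⟩
  rw [← PP_eval, Polynomial.eval₂_eq_sum_range' _ (PP_deg hW hq)]
  rfl

end Pool.Agent.Work.MP_56168e_lc.OS
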