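import Mathlib
import Pool.Agent.Work.MP_56168e_lc.OS.Defs

set_option autoImplicit false

/-!
Roots of unity.  PROOFS.  rt1 M r = exp (2 π I / M)^r is a power of a primitive M-th root of unity
(`Complex.isPrimitiveRoot_exp`).  sum_rt1: ζ = ω^a * conj (ω^b) has ζ^M = 1, and ζ = 1 iff ω^a = ω^b
iff a = b (`IsPrimitiveRoot.pow_inj`); otherwise the geometric sum of ζ^r vanishes.
parseval_rt1, vanish_rt1: expand ‖∑‖^2 = ∑ * conj ∑ and use sum_rt1 (in vanish_rt1 with exponents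
k + m < M and l < N ≤ m ≤ k + m, so they are never equal).
-/

namespace Pool.Agent.Work.MP_56168e_lc.OS

open Finset

lemma norm_rt1 (M : ℕ) (r : Fin M) : ‖rt1 M r‖ = 1 := by
  unfold rt1
  have h : 2 * (Real.pi : ℂ) * Complex.I * ((r : ℕ) : ℂ) / (M : ℂ) =
      ((2 * Real.pi * (r : ℕ) / M : ℝ) : ℂ) * Complex.I := by
    push_cast
    ring
  rw [h, Complex.norm_exp_ofReal_mul_I]

private lemma rt1_eq (M : ℕ) (r : Fin M) :
    rt1 M r = Complex.exp (2 * Real.pi * Complex.I / M) ^ (r : ℕ) := by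
  unfold rt1
  rw [← Complex.exp_nat_mul]
  congr 1
  ring

theorem sum_rt1 {M a b : ℕ} (ha : a < M) (hb : b < M) :
    ∑ r : Fin M, rt1 M r ^ a * (starRingEnd ℂ) (rt1 M r ^ b) = if a = b then (M : ℂ) else 0 := by
  have hM : M ≠ 0 := by omega
  set ω : ℂ := Complex.exp (2 * Real.pi * Complex.I / M) with hω
  have hprim : IsPrimitiveRoot ω M := Complex.isPrimitiveRoot_exp M hM
  have hnorm : ‖ω‖ = 1 := by
    rw [hω]
    have h : 2 * (Real.pi : ℂ) * Complex.I / (M : ℂ) =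
        ((2 * Real.pi / M : ℝ) : ℂ) * Complex.I := by
      push_cast
      ring
    rw [h, Complex.norm_exp_ofReal_mul_I]
  have hconj : ω * (starRingEnd ℂ) ω = 1 := by
    rw [Complex.mul_conj, Complex.normSq_eq_norm_sq, hnorm]
    simp
  set ζ : ℂ := ω ^ a * (starRingEnd ℂ) ω ^ b with hζ
  have hterm : ∀ r : Fin M, rt1 M r ^ a * (starRingEnd ℂ) (rt1 M r ^ b) = ζ ^ (r : ℕ) := by
    intro r
    rw [rt1_eq, hζ, map_pow, map_pow, mul_pow, ← pow_mul, ← pow_mul, ← pow_mul, ← pow_mul,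
      mul_comm (r : ℕ) a, mul_comm (r : ℕ) b]
  have hsum : ∑ r : Fin M, rt1 M r ^ a * (starRingEnd ℂ) (rt1 M r ^ b) =
      ∑ r ∈ range M, ζ ^ r := by
    rw [← Fin.sum_univ_eq_sum_range (fun r => ζ ^ r) M]
    exact Finset.sum_congr rfl fun r _ => hterm r
  rw [hsum]
  have hωM : ω ^ M = 1 := hprim.pow_eq_one
  have hζM : ζ ^ M = 1 := by
    rw [hζ, mul_pow, ← pow_mul, ← pow_mul, mul_comm a M, mul_comm b M, pow_mul, pow_mul, hωM,
      ← map_pow, hωM, map_one, one_pow, one_pow, mul_one]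
  have hζω : ζ * ω ^ b = ω ^ a := by
    rw [hζ, mul_assoc, ← mul_pow, mul_comm ((starRingEnd ℂ) ω) ω, hconj, one_pow, mul_one]
  by_cases hab : a = b
  · rw [if_pos hab]
    have hζ1 : ζ = 1 := by
      have hne : ω ^ b ≠ 0 := pow_ne_zero _ (by
        intro h0
        rw [h0, norm_zero] at hnorm
        exact zero_ne_one hnorm)
      have : ζ * ω ^ b = 1 * ω ^ b := by rw [hζω, hab, one_mul]
      exact mul_right_cancel₀ hne this
    rw [hζ1]
    simp
  · rw [if_neg hab]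
    have hζ1 : ζ ≠ 1 := by
      intro h1
      rw [h1, one_mul] at hζω
      exact hab (hprim.pow_inj ha hb hζω.symm)
    rw [geom_sum_eq hζ1, hζM, sub_self, zero_div]

private lemma expand (c : ℕ → ℝ) (N : ℕ) (z : ℂ) :
    ((‖∑ k ∈ range N, (c k : ℂ) * z ^ k‖ ^ 2 : ℝ) : ℂ) =
      ∑ k ∈ range N, ∑ l ∈ range N, ((c k * c l : ℝ) : ℂ) * (z ^ k * (starRingEnd ℂ) (z ^ l)) := by
  rw [← Complex.normSq_eq_norm_sq, ← Complex.mul_conj, map_sum, Finset.sum_mul_sum]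
  refine Finset.sum_congr rfl fun k _ => Finset.sum_congr rfl fun l _ => ?_
  rw [map_mul, Complex.conj_ofReal]
  push_cast
  ring

theorem parseval_rt1 (c : ℕ → ℝ) {N M : ℕ} (h : N ≤ M) :
    ∑ r : Fin M, ‖∑ k ∈ range N, (c k : ℂ) * rt1 M r ^ k‖ ^ 2 = M * ∑ k ∈ range N, c k ^ 2 := by
  have key : ((∑ r : Fin M, ‖∑ k ∈ range N, (c k : ℂ) * rt1 M r ^ k‖ ^ 2 : ℝ) : ℂ) =
      ((M * ∑ k ∈ range N, c k ^ 2 : ℝ) : ℂ) := by
    rw [Complex.ofReal_sum]
    simp_rw [expand]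
    rw [Finset.sum_comm]
    push_cast
    rw [Finset.mul_sum]
    refine Finset.sum_congr rfl fun k hk => ?_
    rw [Finset.sum_comm]
    have hk' : k < M := (Finset.mem_range.1 hk).trans_le h
    have h1 : ∀ l ∈ range N, ∑ r : Fin M, (c k : ℂ) * (c l : ℂ) *
        (rt1 M r ^ k * (starRingEnd ℂ) (rt1 M r ^ l)) =
        (c k : ℂ) * (c l : ℂ) * (if k = l then (M : ℂ) else 0) := by
      intro l hl
      rw [← Finset.mul_sum, sum_rt1 hk' ((Finset.mem_range.1 hl).trans_le h)]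
    rw [Finset.sum_congr rfl h1, Finset.sum_eq_single_of_mem k hk]
    · rw [if_pos rfl]
      ring
    · intro l _ hlk
      rw [if_neg (Ne.symm hlk), mul_zero]
  exact_mod_cast key

theorem vanish_rt1 (c : ℕ → ℝ) {N M m : ℕ} (h1 : N ≤ m) (h2 : m + N ≤ M) :
    ∑ r : Fin M, ‖∑ k ∈ range N, (c k : ℂ) * rt1 M r ^ k‖ ^ 2 * (rt1 M r ^ m).re = 0 := by
  have key : ∑ r : Fin M, ((‖∑ k ∈ range N, (c k : ℂ) * rt1 M r ^ k‖ ^ 2 : ℝ) : ℂ) *
      rt1 M r ^ m = 0 := by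
    simp_rw [expand, Finset.sum_mul]
    rw [Finset.sum_comm]
    refine Finset.sum_eq_zero fun k hk => ?_
    rw [Finset.sum_comm]
    refine Finset.sum_eq_zero fun l hl => ?_
    have hk' := Finset.mem_range.1 hk
    have hl' := Finset.mem_range.1 hl
    have h3 : ∀ r : Fin M, ((c k * c l : ℝ) : ℂ) * (rt1 M r ^ k * (starRingEnd ℂ) (rt1 M r ^ l)) *
        rt1 M r ^ m = ((c k * c l : ℝ) : ℂ) *
          (rt1 M r ^ (k + m) * (starRingEnd ℂ) (rt1 M r ^ l)) := by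
      intro r
      rw [pow_add]
      ring
    rw [Finset.sum_congr rfl fun r _ => h3 r, ← Finset.mul_sum, sum_rt1 (by omega) (by omega),
      if_neg (by omega), mul_zero]
  have h3 := congrArg Complex.re key
  rw [Complex.re_sum, Complex.zero_re] at h3
  rw [← h3]
  refine Finset.sum_congr rfl fun r _ => ?_
  rw [Complex.re_ofReal_mul]

end Pool.Agent.Work.MP_56168e_lc.OS
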