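import Mathlib
import Pool.Agent.Work.MP_56168e_lc.OS.PzB
import Pool.Agent.Work.MP_56168e_lc.OS.PzC
import Pool.Agent.Work.MP_56168e_lc.OS.Rts

set_option autoImplicit false

/-!
The kernel.  PROOF.  L = Ls W q, N = 4 L, M = n + 2 N, z r = rt1 M r, A r = ‖pz W q (z r)‖^2,
Z = ∑ A r, w r = A r / Z.  c from pz_coeff, ∑_{k<N} c k = pz 1 = 1, so by Cauchy-Schwarz
1 ≤ N ∑ c k^2 and Z = M ∑ c k^2 ≥ M / N (parseval_rt1), in particular Z > 0.
vanish: vanish_rt1.  conc: b r = ‖1 - z r‖ / 2, b0 = 1 / (8 W q).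
If b r ≤ b0: (1 + b r)^(2W) ≤ exp (2 W b0) = exp (1/(4q)) ≤ 1 + 5/(16 q).
If b r > b0: A r (1 + b r)^(2W) ≤ exp 4 * ‖G L (z r)‖^6 (pz_bound)
≤ exp 4 * (L b0)^(-4) * ‖G L (z r)‖^2 (norm_G_mul: ‖G‖ ≤ 1 / (L b) ≤ 1 / (L b0)), L b0 = 8 a0 q ≥ 8 q,
and ∑_r ‖G L (z r)‖^2 = M / L (parseval_rt1 with c = 1/L, N = L).  So the sum over b r > b0 of
w r (1 + b r)^(2W) is ≤ (N / M) * exp 4 * (8 q)^(-4) * M / L = 4 exp 4 / (4096 q^4) ≤ 3/(16 q)
(exp 4 < 55 since exp 1 < 2.7182818286).  Total ≤ 1 + 5/(16 q) + 3/(16 q) = 1 + 1/(2q).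
-/

namespace Pool.Agent.Work.MP_56168e_lc.OS

open Finset

lemma sum_G_sq {L M : ℕ} (hL : 1 ≤ L) (hLM : L ≤ M) :
    ∑ r : Fin M, ‖G L (rt1 M r)‖ ^ 2 = M / L := by
  have hL0 : (L : ℝ) ≠ 0 := by
    have : (1 : ℝ) ≤ L := by exact_mod_cast hL
    positivity
  have h := parseval_rt1 (fun _ => (1 : ℝ) / L) hLM
  have e : ∀ r : Fin M, ∑ k ∈ range L, (((1 : ℝ) / L : ℝ) : ℂ) * rt1 M r ^ k = G L (rt1 M r) := by
    intro r
    unfold G
    rw [← mul_sum]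
    push_cast
    ring
  simp only [e] at h
  rw [h, sum_const, card_range, nsmul_eq_mul]
  field_simp

lemma exp_four_le : Real.exp 4 ≤ 55 := by
  have h1 := Real.exp_one_lt_d9
  have h0 : 0 < Real.exp 1 := Real.exp_pos 1
  have h2 : Real.exp 4 = Real.exp 1 ^ 4 := by
    rw [← Real.exp_nat_mul]
    norm_num
  rw [h2]
  have h3 : Real.exp 1 ^ 4 ≤ 2.7182818286 ^ 4 := pow_le_pow_left₀ h0.le h1.le 4
  refine h3.trans ?_
  norm_num

lemma central {W q : ℕ} (hW : 1 ≤ W) (hq : 1 ≤ q) {b : ℝ} (hb : 0 ≤ b)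
    (h : b ≤ 1 / (8 * W * q)) : (1 + b) ^ (2 * W) ≤ 1 + 5 / (16 * q) := by
  have hW0 : (1 : ℝ) ≤ W := by exact_mod_cast hW
  have hq0 : (1 : ℝ) ≤ q := by exact_mod_cast hq
  have h1 : (1 + b) ^ (2 * W) ≤ Real.exp (b * (2 * W : ℕ)) := by
    rw [Real.exp_mul, Real.rpow_natCast]
    refine pow_le_pow_left₀ (by linarith) ?_ _
    have := Real.add_one_le_exp b
    linarith
  have h2 : b * (2 * W : ℕ) ≤ 1 / (4 * q) := by
    push_cast
    calc b * (2 * W) ≤ 1 / (8 * W * q) * (2 * W) := by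
          refine mul_le_mul_of_nonneg_right h (by positivity)
      _ = 1 / (4 * q) := by
          field_simp
          norm_num
  have h3 : (1 : ℝ) / (4 * q) ≤ 1 / 4 := by
    refine one_div_le_one_div_of_le (by norm_num) (by linarith)
  have h3' : (0 : ℝ) < 1 / (4 * q) := by positivity
  have h4 : Real.exp (1 / (4 * q)) ≤ 1 + 1 / (4 * q) + (1 / (4 * q)) ^ 2 := by
    have h5 := Real.abs_exp_sub_one_sub_id_le (x := 1 / (4 * (q : ℝ)))
      (by rw [abs_of_pos h3']; linarith)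
    have h6 := abs_le.mp h5
    linarith [h6.2]
  refine (h1.trans (Real.exp_le_exp.mpr h2)).trans (h4.trans ?_)
  have h7 : (1 / (4 * (q : ℝ))) ^ 2 ≤ 1 / (16 * q) := by
    rw [div_pow, one_pow]
    refine one_div_le_one_div_of_le (by positivity) ?_
    nlinarith
  have h8 : (1 : ℝ) / (4 * q) = 4 / (16 * q) := by
    field_simp
    norm_num
  have h9 : (5 : ℝ) / (16 * q) = 4 / (16 * q) + 1 / (16 * q) := by
    field_simp
    norm_num
  rw [h9, ← h8]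
  linarith

lemma outer {W q : ℕ} (hW : 1 ≤ W) (hq : 1 ≤ q) {z : ℂ} (hz : ‖z‖ = 1)
    (h : 1 / (8 * W * q) < ‖1 - z‖ / 2) :
    ‖pz W q z‖ ^ 2 * (1 + ‖1 - z‖ / 2) ^ (2 * W) ≤
      55 / 4096 / q ^ 4 * ‖G (Ls W q) z‖ ^ 2 := by
  have hW0 : (1 : ℝ) ≤ W := by exact_mod_cast hW
  have hq0 : (1 : ℝ) ≤ q := by exact_mod_cast hq
  have hLb : (8 : ℝ) * q ≤ Ls W q * (‖1 - z‖ / 2) := by
    have ha : (1 : ℝ) ≤ a0 W := by
      unfold a0
      push_cast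
      have : (0 : ℝ) ≤ (Nat.log 2 W : ℝ) := by positivity
      linarith
    have e : (Ls W q : ℝ) = 64 * W * a0 W * q ^ 2 := by
      unfold Ls
      push_cast
      ring
    have h1 : (8 : ℝ) * q ≤ Ls W q * (1 / (8 * W * q)) := by
      rw [e]
      have : 64 * (W : ℝ) * a0 W * q ^ 2 * (1 / (8 * W * q)) = 8 * q * a0 W := by
        field_simp
        norm_num
      rw [this]
      nlinarith
    refine h1.trans (mul_le_mul_of_nonneg_left h.le (by positivity))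
  have hG : ‖G (Ls W q) z‖ ≤ 1 / (8 * q) := by
    have h1 := norm_G_mul (Ls W q) hz
    rw [le_div_iff₀ (by positivity)]
    refine le_trans (mul_le_mul_of_nonneg_left hLb (norm_nonneg _)) h1
  have hG4 : ‖G (Ls W q) z‖ ^ 4 ≤ (1 / (8 * q)) ^ 4 := pow_le_pow_left₀ (norm_nonneg _) hG 4
  refine (pz_bound hW hz).trans ?_
  have e6 : ‖G (Ls W q) z‖ ^ 6 = ‖G (Ls W q) z‖ ^ 4 * ‖G (Ls W q) z‖ ^ 2 := by ring
  rw [e6, ← mul_assoc]
  refine mul_le_mul_of_nonneg_right ?_ (by positivity)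
  have e1 : (1 / (8 * (q : ℝ))) ^ 4 = 1 / 4096 / q ^ 4 := by
    field_simp
    norm_num
  rw [e1] at hG4
  calc Real.exp 4 * ‖G (Ls W q) z‖ ^ 4 ≤ 55 * (1 / 4096 / q ^ 4) :=
        mul_le_mul exp_four_le hG4 (by positivity) (by norm_num)
    _ = _ := by ring

theorem kern_exists {W q : ℕ} (hW : 1 ≤ W) (hq : 1 ≤ q) (n : ℕ) :
    ∃ (M : ℕ) (w : Fin M → ℝ) (z : Fin M → ℂ), Kern W n (4 * Ls W q) (1 / (2 * q)) M w z := by
  obtain ⟨c, hc⟩ := pz_coeff hW hq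
  have hq0 : (1 : ℝ) ≤ q := by exact_mod_cast hq
  have hL1 : 1 ≤ Ls W q := by
    unfold Ls a0
    have : 0 < 64 * W * (Nat.log 2 W + 1) * q ^ 2 := by positivity
    omega
  obtain ⟨L, hL⟩ : ∃ L, L = Ls W q := ⟨_, rfl⟩
  rw [← hL] at hL1 hc ⊢
  obtain ⟨N, hN⟩ : ∃ N, N = 4 * L := ⟨_, rfl⟩
  rw [← hN] at hc ⊢
  obtain ⟨M, hM⟩ : ∃ M, M = n + 2 * N := ⟨_, rfl⟩
  have hN1 : 1 ≤ N := by omega
  have hNM : N ≤ M := by omega
  have hLM : L ≤ M := by omega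
  have hL0 : (1 : ℝ) ≤ L := by exact_mod_cast hL1
  have hN0 : (1 : ℝ) ≤ N := by exact_mod_cast hN1
  have hM0 : (1 : ℝ) ≤ M := by
    have : 1 ≤ M := by omega
    exact_mod_cast this
  have hA : ∀ r : Fin M, ‖pz W q (rt1 M r)‖ ^ 2
      = ‖∑ k ∈ range N, (c k : ℂ) * rt1 M r ^ k‖ ^ 2 := by
    intro r
    rw [hc]
  obtain ⟨Z, hZd⟩ : ∃ Z, Z = ∑ r : Fin M, ‖pz W q (rt1 M r)‖ ^ 2 := ⟨_, rfl⟩
  have hZ : Z = M * ∑ k ∈ range N, c k ^ 2 := by
    rw [hZd, sum_congr rfl fun r _ => hA r]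
    exact parseval_rt1 c hNM
  have hc1 : ∑ k ∈ range N, c k = 1 := by
    have h1 := hc 1
    rw [pz_one hW hq] at h1
    have h2 : ((∑ k ∈ range N, c k : ℝ) : ℂ) = 1 := by
      rw [h1]
      push_cast
      simp
    exact_mod_cast h2
  have hcs : 1 ≤ (N : ℝ) * ∑ k ∈ range N, c k ^ 2 := by
    have h1 := sq_sum_le_card_mul_sum_sq (s := range N) (f := c)
    rw [hc1, card_range] at h1
    simpa using h1
  have hZN : (M : ℝ) / N ≤ Z := by
    rw [hZ, div_le_iff₀ (by linarith)]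
    have : (M : ℝ) * 1 ≤ M * (N * ∑ k ∈ range N, c k ^ 2) :=
      mul_le_mul_of_nonneg_left hcs (by linarith)
    nlinarith
  have hZ0 : 0 < Z := lt_of_lt_of_le (by positivity) hZN
  refine ⟨M, fun r => ‖pz W q (rt1 M r)‖ ^ 2 / Z, fun r => rt1 M r, ?_⟩
  constructor
  · intro r
    positivity
  · intro r
    exact norm_rt1 M r
  · rw [← sum_div, ← hZd]
    exact div_self hZ0.ne'
  · intro m h1 h2
    unfold psi
    have h3 := vanish_rt1 c (N := N) (M := M) (m := m) h1 (by omega)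
    have h4 : ∑ r : Fin M, ‖pz W q (rt1 M r)‖ ^ 2 / Z * (rt1 M r ^ m).re
        = (∑ r : Fin M, ‖∑ k ∈ range N, (c k : ℂ) * rt1 M r ^ k‖ ^ 2 * (rt1 M r ^ m).re) / Z := by
      rw [sum_div]
      refine sum_congr rfl fun r _ => ?_
      rw [hA r]
      ring
    rw [h4, h3, zero_div]
  · have hr : ∀ r : Fin M, ‖pz W q (rt1 M r)‖ ^ 2 * (1 + ‖1 - rt1 M r‖ / 2) ^ (2 * W) ≤
        (1 + 5 / (16 * q)) * ‖pz W q (rt1 M r)‖ ^ 2
          + 55 / 4096 / q ^ 4 * ‖G L (rt1 M r)‖ ^ 2 := by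
      intro r
      by_cases h : ‖1 - rt1 M r‖ / 2 ≤ 1 / (8 * W * q)
      · have h1 := central hW hq (by positivity) h
        have h2 : 0 ≤ 55 / 4096 / (q : ℝ) ^ 4 * ‖G L (rt1 M r)‖ ^ 2 := by positivity
        have h3 : ‖pz W q (rt1 M r)‖ ^ 2 * (1 + ‖1 - rt1 M r‖ / 2) ^ (2 * W) ≤
            ‖pz W q (rt1 M r)‖ ^ 2 * (1 + 5 / (16 * q)) :=
          mul_le_mul_of_nonneg_left h1 (by positivity)
        linarith
      · push Not at h
        have h1 := outer hW hq (norm_rt1 M r) h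
        rw [← hL] at h1
        have h2 : 0 ≤ (1 + 5 / (16 * (q : ℝ))) * ‖pz W q (rt1 M r)‖ ^ 2 := by positivity
        linarith
    have hs : ∑ r : Fin M, ‖pz W q (rt1 M r)‖ ^ 2 * (1 + ‖1 - rt1 M r‖ / 2) ^ (2 * W) ≤
        (1 + 5 / (16 * q)) * Z + 55 / 4096 / q ^ 4 * (M / L) := by
      refine (sum_le_sum fun r _ => hr r).trans ?_
      rw [sum_add_distrib, ← mul_sum, ← mul_sum, ← hZd, sum_G_sq hL1 hLM]
    have e1 : ∑ r : Fin M, ‖pz W q (rt1 M r)‖ ^ 2 / Z * (1 + ‖1 - rt1 M r‖ / 2) ^ (2 * W)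
        = (∑ r : Fin M, ‖pz W q (rt1 M r)‖ ^ 2 * (1 + ‖1 - rt1 M r‖ / 2) ^ (2 * W)) / Z := by
      rw [sum_div]
      refine sum_congr rfl fun r _ => ?_
      ring
    rw [e1, div_le_iff₀ hZ0]
    refine hs.trans ?_
    have hML : (M : ℝ) / L ≤ 4 * Z := by
      have h1 : (M : ℝ) / L = 4 * (M / N) := by
        rw [hN]
        push_cast
        field_simp
      rw [h1]
      linarith
    have h5 : 55 / 4096 / (q : ℝ) ^ 4 * (M / L) ≤ 3 / (16 * q) * Z := by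
      have h6 : 55 / 4096 / (q : ℝ) ^ 4 ≤ 55 / 4096 / q := by
        refine div_le_div_of_nonneg_left (by norm_num) (by linarith) ?_
        calc (q : ℝ) = q ^ 1 := by ring
          _ ≤ q ^ 4 := pow_le_pow_right₀ hq0 (by norm_num)
      calc 55 / 4096 / (q : ℝ) ^ 4 * (M / L) ≤ 55 / 4096 / q * (4 * Z) :=
            mul_le_mul h6 hML (by positivity) (by positivity)
        _ = 220 / 4096 / q * Z := by ring
        _ ≤ 3 / (16 * q) * Z := by
            refine mul_le_mul_of_nonneg_right ?_ hZ0.le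
            have : (3 : ℝ) / (16 * q) = 3 / 16 / q := by
              field_simp
            rw [this]
            refine div_le_div_of_nonneg_right (by norm_num) (by linarith)
    have h6 : (1 + 1 / (2 * (q : ℝ))) * Z = (1 + 5 / (16 * q)) * Z + 3 / (16 * q) * Z := by
      field_simp
      ring
    rw [h6]
    linarith

end Pool.Agent.Work.MP_56168e_lc.OS
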