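import Mathlib
import Pool.Agent.Work.MP_56168e_lc.OS.Ker
import Pool.Agent.Work.MP_56168e_lc.OS.ApxQ
import Pool.Agent.Work.MP_56168e_lc.OS.ApxV

set_option autoImplicit false

/-!
Existence of the approximator.  PROOF.  kern_exists, v = vv T (psi w z);
(1 + 1/(2q))^2 ≤ 1 + 5/(4q) for q ≥ 1, and s (1 + (13W)^K) ≤ 2 (s+1) (13W)^K.
-/

namespace Pool.Agent.Work.MP_56168e_lc.OS

open Finset

variable {n s : ℕ}

/-- bound for the spectral norm -/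
noncomputable def Lm (s W q : ℕ) : ℝ := 2 * (s + 1) * (13 * W) ^ (4 * Ls W q)

lemma one_le_Lm {s W q : ℕ} (hW1 : 1 ≤ W) : 1 ≤ Lm s W q := by
  have h0 : (1 : ℝ) ≤ W := by exact_mod_cast hW1
  have h1 : (1 : ℝ) ≤ 13 * W := by linarith
  have h2 : (1 : ℝ) ≤ (13 * W) ^ (4 * Ls W q) := one_le_pow₀ h1
  have h3 : (0 : ℝ) ≤ s := Nat.cast_nonneg s
  unfold Lm
  nlinarith

lemma Lm_mono {s s' W q : ℕ} (h : s ≤ s') : Lm s W q ≤ Lm s' W q := by
  have h1 : (s : ℝ) ≤ s' := by exact_mod_cast h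
  unfold Lm
  gcongr

theorem apx_exists (T : Fin s → PA n) {W q : ℕ} (hW1 : 1 ≤ W) (hq : 1 ≤ q)
    (hW : ∀ i, (dom (T i)).card ≤ W) : ∃ v, Apx T (5 / (4 * q)) (Lm s W q) v := by
  obtain ⟨M, w, z, hK⟩ := kern_exists hW1 hq n
  refine ⟨vv T (psi w z), vv_off T _, vv_ex T (psi_zero hK), ?_, ?_, fun D hD => vv_ind T _ hD⟩
  · refine le_trans (vv_sq T hW hK) ?_
    refine mul_le_mul_of_nonneg_right ?_ (ex_nonneg (dn_nonneg T))
    have hq0 : (0 : ℝ) < q := by exact_mod_cast hq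
    have hq1 : (1 : ℝ) ≤ q := by exact_mod_cast hq
    have h1 : (1 : ℝ) / q ≤ 1 := by
      rw [div_le_one hq0]
      exact hq1
    have h2 : (0 : ℝ) ≤ 1 / q := by positivity
    have h3 : (1 : ℝ) / (2 * q) = (1 / q) / 2 := by field_simp
    have h4 : (5 : ℝ) / (4 * q) = 5 * (1 / q) / 4 := by field_simp
    rw [h3, h4]
    nlinarith
  · refine le_trans (vv_nrm T hW1 hW (psi_le hK) hK.vanish) ?_
    have h0 : (1 : ℝ) ≤ W := by exact_mod_cast hW1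
    have h1 : (1 : ℝ) ≤ 13 * W := by linarith
    have h2 : (1 : ℝ) ≤ (13 * W) ^ (4 * Ls W q) := one_le_pow₀ h1
    have h3 : (0 : ℝ) ≤ s := Nat.cast_nonneg s
    unfold Lm
    nlinarith

end Pool.Agent.Work.MP_56168e_lc.OS
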