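import Mathlib
import Pool.Agent.Work.MP_56168e_lc.OS.Uu

set_option autoImplicit false

/-!
Lower bound.  PROOF.  P = ex dn, y = pe φ dn ≥ 0.  If P ≤ δ done.  pe φ v ≥ P - ε Λ (`fool`),
pe φ (v^2) ≤ ex (v^2) + ε nrm (v^2) ≤ (1+η) P + ε Λ^2 (`nrm_sq_le`).  v = v * dn pointwise, so by
Cauchy-Schwarz for the weight φ ≥ 0: (pe φ v)^2 ≤ pe φ (v^2) * pe φ (dn^2) = pe φ (v^2) * y.
With e = ε Λ^2 ≥ ε Λ: (P - e)^2 ≤ y ((1+η) P + e) (P - e ≥ 0).  If y < P - δ this gives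
δ P < η P^2 + 3 e P, i.e. δ < η P + 3 e ≤ δ/2 + δ/2 (P ≤ 1), a contradiction.
-/

namespace Pool.Agent.Work.MP_56168e_lc.OS

open Finset

variable {n s : ℕ}

theorem low_of_apx {T : Fin s → PA n} {η Λ δ ε : ℝ} {v φ : Cube n → ℝ} (hv : Apx T η Λ v)
    (hφ : Dens ε φ) (hε : 0 ≤ ε) (hδ : 0 < δ) (hη : 0 ≤ η) (hη2 : η ≤ δ / 2) (hΛ : 1 ≤ Λ)
    (he : ε * Λ ^ 2 ≤ δ / 6) : ex (dn T) - δ ≤ pe φ (dn T) := by
  by_contra hcon
  rw [not_le] at hcon
  have hP1 : ex (dn T) ≤ 1 := by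
    rw [← ex_const (n := n) (1 : ℝ)]
    exact ex_mono (dn_le_one T)
  have hy0 : 0 ≤ pe φ (dn T) := pe_nonneg hφ (dn_nonneg T)
  have hnv := hv.nrml
  have hΛ2 : Λ ≤ Λ ^ 2 := by nlinarith
  -- the mean of `v`
  have f1 : ex (dn T) - ε * Λ ^ 2 ≤ pe φ v := by
    have h1 := (abs_le.1 (fool hφ hε v)).1
    rw [hv.mean] at h1
    have h2 : ε * nrm v ≤ ε * Λ ^ 2 := mul_le_mul_of_nonneg_left (hnv.trans hΛ2) hε
    linarith
  -- the second moment of `v`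
  have f2 : pe φ (fun x => v x ^ 2) ≤ (1 + η) * ex (dn T) + ε * Λ ^ 2 := by
    have h1 := (abs_le.1 (fool hφ hε (fun x => v x ^ 2))).2
    have h2 := hv.sq
    have h3 : nrm (fun x => v x ^ 2) ≤ Λ ^ 2 :=
      (nrm_sq_le v).trans (pow_le_pow_left₀ (nrm_nonneg v) hnv 2)
    have h4 := mul_le_mul_of_nonneg_left h3 hε
    linarith
  -- Cauchy-Schwarz
  have f3 : pe φ v ^ 2 ≤ pe φ (fun x => v x ^ 2) * pe φ (dn T) := by
    unfold pe ex
    rw [div_pow, div_mul_div_comm, ← pow_two]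
    refine div_le_div_of_nonneg_right ?_ (by positivity)
    refine Finset.sum_sq_le_sum_mul_sum_of_sq_le_mul _
      (fun x _ => mul_nonneg (hφ.nonneg x) (sq_nonneg _))
      (fun x _ => mul_nonneg (hφ.nonneg x) (dn_nonneg T x)) (fun x _ => le_of_eq ?_)
    by_cases hx : dn T x = 0
    · rw [hv.off x hx, hx]
      ring
    · have h1 : dn T x = 1 := by
        revert hx
        unfold dn
        split_ifs <;> simp
      rw [h1]
      ring
  have hPpos : 0 < ex (dn T) := by linarith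
  have he0 : 0 ≤ ε * Λ ^ 2 := by positivity
  generalize ex (dn T) = P at *
  generalize pe φ (dn T) = y at *
  generalize ε * Λ ^ 2 = e at *
  have hA : 0 < (1 + η) * P + e := by positivity
  have f4 : (P - e) ^ 2 ≤ pe φ v ^ 2 := pow_le_pow_left₀ (by linarith) f1 2
  have f5 : pe φ (fun x => v x ^ 2) * y ≤ ((1 + η) * P + e) * y := mul_le_mul_of_nonneg_right f2 hy0
  have f6 : ((1 + η) * P + e) * y < ((1 + η) * P + e) * (P - δ) := mul_lt_mul_of_pos_left hcon hA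
  have f7 : (P - e) ^ 2 < ((1 + η) * P + e) * (P - δ) := by linarith
  have g1 := mul_nonneg he0 hδ.le
  have g2 := mul_nonneg (mul_nonneg hη hδ.le) hPpos.le
  have g3 := sq_nonneg e
  have f8 : δ * P < (η * P + 3 * e) * P := by nlinarith
  have f9 : δ < η * P + 3 * e := lt_of_mul_lt_mul_right f8 hPpos.le
  nlinarith [mul_le_mul_of_nonneg_left hP1 hη]

end Pool.Agent.Work.MP_56168e_lc.OS
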