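import Mathlib
import Pool.Agent.Work.MP_56168e_lc.OS.Uu

set_option autoImplicit false

/-!
Long terms.  PROOFS.  drop_long: L = (List.ofFn T).filter (fun P => (dom P).card ≤ W), T' = fam L;
dn T ≤ dn T' + ∑_{i : |dom (T i)| > W} ti (T i), and ex (ti P) = pw P ≤ (1/2)^W there.
cut_long: if |dom (T i)| ≤ W let T' i = T i, otherwise keep W of its variables
(`Finset.exists_subset_card_eq`), so that Sat (T i) x → Sat (T' i) x; then
dn T' ≤ dn T + ∑_{i long} ti (T' i) and pw (T' i) = (1/2)^W for the long ones.
-/

namespace Pool.Agent.Work.MP_56168e_lc.OS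

open Finset

variable {n s : ℕ}

private lemma wid_dn_one {T : Fin s → PA n} {x : Cube n} (i : Fin s) (h : Sat (T i) x) :
    dn T x = 1 := by
  unfold dn
  rw [if_pos ⟨i, h⟩]

private lemma wid_dn_zero {T : Fin s → PA n} {x : Cube n} (h : ¬ ∃ i, Sat (T i) x) :
    dn T x = 0 := by
  unfold dn
  rw [if_neg h]

private lemma wid_ti_nonneg (P : PA n) (x : Cube n) : 0 ≤ ti P x := by
  unfold ti
  split_ifs <;> norm_num

private lemma wid_ti_one {P : PA n} {x : Cube n} (h : Sat P x) : ti P x = 1 := by
  unfold ti
  rw [if_pos h]

private lemma wid_pw_nonneg (P : PA n) : 0 ≤ pw P := by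
  unfold pw
  positivity

private lemma wid_pw_le {P : PA n} {W : ℕ} (h : W ≤ (dom P).card) : pw P ≤ (1 / 2) ^ W := by
  unfold pw
  exact pow_le_pow_of_le_one (by norm_num) (by norm_num) h

theorem drop_long (T : Fin s → PA n) (W : ℕ) :
    ∃ (s' : ℕ) (T' : Fin s' → PA n), s' ≤ s ∧ (∀ i, (dom (T' i)).card ≤ W) ∧
      (∀ x, dn T' x ≤ dn T x) ∧ ex (dn T) ≤ ex (dn T') + s * (1 / 2) ^ W := by
  classical
  let L : List (PA n) := (List.ofFn T).filter (fun P => decide ((dom P).card ≤ W))
  have hL : ∀ P, P ∈ L ↔ (∃ i, T i = P) ∧ (dom P).card ≤ W := by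
    intro P
    rw [List.mem_filter, List.mem_ofFn', decide_eq_true_iff]
    rfl
  refine ⟨L.length, fam L, ?_, ?_, ?_, ?_⟩
  · refine (List.length_filter_le _ _).trans ?_
    rw [List.length_ofFn]
  · intro i
    exact ((hL _).1 (List.get_mem L i)).2
  · intro x
    by_cases h : ∃ i, Sat (fam L i) x
    · obtain ⟨i, hi⟩ := h
      obtain ⟨⟨j, hj⟩, -⟩ := (hL _).1 (List.get_mem L i)
      have hj' : Sat (T j) x := by
        rw [hj]
        exact hi
      rw [wid_dn_one i hi, wid_dn_one j hj']
    · rw [wid_dn_zero h]
      exact dn_nonneg _ _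
  · have h1 : ∀ x, dn T x ≤ dn (fam L) x +
        ∑ i, (if (dom (T i)).card ≤ W then 0 else ti (T i) x) := by
      intro x
      have hs : 0 ≤ ∑ i, (if (dom (T i)).card ≤ W then 0 else ti (T i) x) :=
        Finset.sum_nonneg fun i _ => by
          split_ifs
          · exact le_rfl
          · exact wid_ti_nonneg _ _
      by_cases h : ∃ i, Sat (T i) x
      · obtain ⟨i, hi⟩ := h
        rw [wid_dn_one i hi]
        by_cases hc : (dom (T i)).card ≤ W
        · have hm : T i ∈ L := (hL _).2 ⟨⟨i, rfl⟩, hc⟩
          obtain ⟨k, hk⟩ := List.get_of_mem hm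
          have hk' : Sat (fam L k) x := by
            show Sat (L.get k) x
            rw [hk]
            exact hi
          rw [wid_dn_one k hk']
          linarith
        · have h2 : (if (dom (T i)).card ≤ W then 0 else ti (T i) x) ≤
              ∑ i, (if (dom (T i)).card ≤ W then 0 else ti (T i) x) :=
            Finset.single_le_sum (f := fun i => (if (dom (T i)).card ≤ W then 0 else ti (T i) x))
              (fun i _ => by
                split_ifs
                · exact le_rfl
                · exact wid_ti_nonneg _ _) (Finset.mem_univ i)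
          rw [if_neg hc, wid_ti_one hi] at h2
          have h3 := dn_nonneg (fam L) x
          linarith
      · rw [wid_dn_zero h]
        have h3 := dn_nonneg (fam L) x
        linarith
    have h2 := ex_mono h1
    rw [ex_add, ex_sum] at h2
    refine h2.trans ?_
    have h3 : ∑ i, ex (fun x => (if (dom (T i)).card ≤ W then 0 else ti (T i) x)) ≤
        ∑ _i : Fin s, (1 / 2 : ℝ) ^ W := by
      refine Finset.sum_le_sum fun i _ => ?_
      by_cases hc : (dom (T i)).card ≤ W
      · simp only [if_pos hc]
        rw [ex_const]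
        positivity
      · simp only [if_neg hc]
        have e : ex (fun x => ti (T i) x) = pw (T i) := ex_ti (T i)
        rw [e]
        exact wid_pw_le (not_le.1 hc).le
    rw [Finset.sum_const, Finset.card_univ, Fintype.card_fin, nsmul_eq_mul] at h3
    linarith

theorem cut_long (T : Fin s → PA n) (W : ℕ) :
    ∃ T' : Fin s → PA n, (∀ i, (dom (T' i)).card ≤ W) ∧ (∀ x, dn T x ≤ dn T' x) ∧
      ex (dn T') ≤ ex (dn T) + s * (1 / 2) ^ W ∧ mu T' ≤ mu T + s * (1 / 2) ^ W := by
  classical
  have key : ∀ i, ∃ P : PA n, (dom P).card ≤ W ∧ (∀ x, Sat (T i) x → Sat P x) ∧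
      (P = T i ∨ pw P = (1 / 2) ^ W) := by
    intro i
    by_cases hc : (dom (T i)).card ≤ W
    · exact ⟨T i, hc, fun x h => h, Or.inl rfl⟩
    · obtain ⟨S, hS, hSc⟩ := Finset.exists_subset_card_eq (not_le.1 hc).le
      have hd : dom (fun j => if j ∈ S then T i j else none) = S := by
        ext j
        unfold dom
        rw [Finset.mem_filter]
        constructor
        · rintro ⟨-, h⟩
          by_contra hj
          exact h (if_neg hj)
        · intro hj
          refine ⟨Finset.mem_univ _, ?_⟩
          have e : (fun j => if j ∈ S then T i j else none) j = T i j := if_pos hj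
          rw [e]
          exact (Finset.mem_filter.1 (hS hj)).2
      refine ⟨fun j => if j ∈ S then T i j else none, ?_, ?_, Or.inr ?_⟩
      · rw [hd, hSc]
      · intro x hx j b hb
        dsimp only at hb
        split_ifs at hb with hj
        exact hx j b hb
      · unfold pw
        rw [hd, hSc]
  choose T' hT1 hT2 hT3 using key
  have hpow : (0 : ℝ) ≤ (1 / 2) ^ W := by positivity
  refine ⟨T', hT1, ?_, ?_, ?_⟩
  · intro x
    by_cases h : ∃ i, Sat (T i) x
    · obtain ⟨i, hi⟩ := h
      rw [wid_dn_one i hi, wid_dn_one i (hT2 i x hi)]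
    · rw [wid_dn_zero h]
      exact dn_nonneg _ _
  · have h1 : ∀ x, dn T' x ≤ dn T x + ∑ i, (if T' i = T i then 0 else ti (T' i) x) := by
      intro x
      have hs : 0 ≤ ∑ i, (if T' i = T i then 0 else ti (T' i) x) :=
        Finset.sum_nonneg fun i _ => by
          split_ifs
          · exact le_rfl
          · exact wid_ti_nonneg _ _
      by_cases h : ∃ i, Sat (T' i) x
      · obtain ⟨i, hi⟩ := h
        rw [wid_dn_one i hi]
        by_cases hc : T' i = T i
        · have hi' : Sat (T i) x := by
            rw [← hc]
            exact hi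
          rw [wid_dn_one i hi']
          linarith
        · have h2 : (if T' i = T i then 0 else ti (T' i) x) ≤
              ∑ i, (if T' i = T i then 0 else ti (T' i) x) :=
            Finset.single_le_sum (f := fun i => (if T' i = T i then 0 else ti (T' i) x))
              (fun i _ => by
                split_ifs
                · exact le_rfl
                · exact wid_ti_nonneg _ _) (Finset.mem_univ i)
          rw [if_neg hc, wid_ti_one hi] at h2
          have h3 := dn_nonneg T x
          linarith
      · rw [wid_dn_zero h]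
        have h3 := dn_nonneg T x
        linarith
    have h2 := ex_mono h1
    rw [ex_add, ex_sum] at h2
    refine h2.trans ?_
    have h3 : ∑ i, ex (fun x => (if T' i = T i then 0 else ti (T' i) x)) ≤
        ∑ _i : Fin s, (1 / 2 : ℝ) ^ W := by
      refine Finset.sum_le_sum fun i _ => ?_
      by_cases hc : T' i = T i
      · simp only [if_pos hc]
        rw [ex_const]
        exact hpow
      · simp only [if_neg hc]
        have e : ex (fun x => ti (T' i) x) = pw (T' i) := ex_ti (T' i)
        rw [e]
        exact ((hT3 i).resolve_left hc).le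
    rw [Finset.sum_const, Finset.card_univ, Fintype.card_fin, nsmul_eq_mul] at h3
    linarith
  · have h3 : mu T' ≤ ∑ i : Fin s, (pw (T i) + (1 / 2 : ℝ) ^ W) := by
      refine Finset.sum_le_sum fun i _ => ?_
      rcases hT3 i with h | h
      · rw [h]
        linarith
      · rw [h]
        linarith [wid_pw_nonneg (T i)]
    rw [Finset.sum_add_distrib, Finset.sum_const, Finset.card_univ, Fintype.card_fin,
      nsmul_eq_mul] at h3
    exact h3

end Pool.Agent.Work.MP_56168e_lc.OS
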