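import Mathlib
import Pool.Agent.Work.MP_56168e_lc.OS.ApxT

set_option autoImplicit false

/-!
Numbers.  PROOF.  L = log (16 (s+1) / δ) ≥ log 16 > 2.7, log L ≥ 0.99.
W = ⌈log (8 (s+1) / δ) / log 2⌉ (or Nat.ceil (2 L)): (1/2)^W ≤ δ / (8 (s+1)), W ≤ 3 L say.
q = ⌈10 B / δ⌉ ≤ 11 B / δ.  a0 W ≤ 1 + log W / log 2 ≤ 5 log L (W ≤ 3 L, log 3 ≤ 1.1 log L + ..).
4 Ls = 256 W a0 q^2 ≤ C1 L (log L) (B/δ)^2, log (13 W) ≤ C2 log L,
log (Lm^2 (s+1)) ≤ 3 log (2 (s+1)) + 8 Ls log (13 W) ≤ C3 (B/δ)^2 L (log L)^2, and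
log (32/δ) ≤ 2 L.  C may be chosen huge.
-/

namespace Pool.Agent.Work.MP_56168e_lc.OS

open Finset

noncomputable def LL (s : ℕ) (δ : ℝ) : ℝ := Real.log (16 * (s + 1) / δ)

noncomputable def XX (C B : ℝ) (s : ℕ) (δ : ℝ) : ℝ :=
  C * (B / δ) ^ 2 * LL s δ * Real.log (LL s δ) ^ 2

private lemma log16 (s : ℕ) {δ : ℝ} (h0 : 0 < δ) :
    LL s δ = 4 * Real.log 2 + Real.log (s + 1) + -Real.log δ := by
  have hs : (0 : ℝ) < (s : ℝ) + 1 := by positivity
  unfold LL
  rw [Real.log_div (by positivity) h0.ne', Real.log_mul (by norm_num) hs.ne']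
  have : Real.log 16 = 4 * Real.log 2 := by
    rw [show (16 : ℝ) = 2 ^ 4 by norm_num, Real.log_pow]
    norm_num
  rw [this]
  ring

private lemma a0_le {W : ℕ} {L : ℝ} (hlog : 1 ≤ Real.log L) (hW1 : 1 ≤ W)
    (hW : (W : ℝ) ≤ L ^ 2) : (a0 W : ℝ) ≤ 4 * Real.log L := by
  have h1 : (2 : ℝ) ^ Nat.log 2 W ≤ W := by exact_mod_cast Nat.pow_log_le_self 2 (by omega)
  have h2 : (Nat.log 2 W : ℝ) * Real.log 2 ≤ 2 * Real.log L := by
    rw [← Real.log_pow]
    have h3 : Real.log (2 ^ Nat.log 2 W) ≤ Real.log (L ^ 2) :=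
      Real.log_le_log (by positivity) (h1.trans hW)
    have h4 : Real.log (L ^ 2) = 2 * Real.log L := by
      rw [Real.log_pow]
      norm_num
    rw [h4] at h3
    exact h3
  have h5 := Real.log_two_gt_d9
  have h6 : (0 : ℝ) ≤ (Nat.log 2 W : ℝ) := by positivity
  unfold a0
  push_cast
  nlinarith

theorem num : ∃ C : ℝ, 0 < C ∧ ∀ (s : ℕ) (δ B : ℝ), 0 < δ → δ ≤ 1 → 1 ≤ B →
    ∃ W q : ℕ, 1 ≤ W ∧ 1 ≤ q ∧ 5 / (4 * q) ≤ δ / (8 * B) ∧ (s + 1) * (1 / 2) ^ W ≤ δ / 8 ∧
      (s + 1) * (Real.exp (-(XX C B s δ)) * Lm s W q ^ 2) ≤ δ / 32 := by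
  refine ⟨5000000, by norm_num, fun s δ B hδ hδ1 hB => ?_⟩
  set L := LL s δ with hLdef
  have hs1 : (1 : ℝ) ≤ (s : ℝ) + 1 := by
    have : (0 : ℝ) ≤ (s : ℝ) := by positivity
    linarith
  have hu : 0 ≤ Real.log ((s : ℝ) + 1) := Real.log_nonneg hs1
  have hd : 0 ≤ -Real.log δ := by
    have := Real.log_nonpos hδ.le hδ1
    linarith
  have hLeq : L = 4 * Real.log 2 + Real.log (s + 1) + -Real.log δ := log16 s hδ
  have hlog2 := Real.log_two_gt_d9
  have hlog2' := Real.log_two_lt_d9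
  have hL27 : 2.77 ≤ L := by
    rw [hLeq]
    linarith
  have hlogL : 1 ≤ Real.log L := by
    rw [Real.le_log_iff_exp_le (by linarith)]
    have := Real.exp_one_lt_d9
    linarith
  have hbd : 1 ≤ B / δ := by
    rw [le_div_iff₀ hδ]
    linarith
  -- the choice of W
  set W := ⌈2 * L⌉₊ with hWdef
  have hW0 : 2 * L ≤ W := Nat.le_ceil _
  have hW1r : (W : ℝ) < 2 * L + 1 := Nat.ceil_lt_add_one (by linarith)
  have hW1 : 1 ≤ W := by
    have : (1 : ℝ) ≤ W := by linarith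
    exact_mod_cast this
  have hWL : (W : ℝ) ≤ 3 * L := by linarith
  have hWL2 : (W : ℝ) ≤ L ^ 2 := by nlinarith
  set q := ⌈10 * (B / δ)⌉₊ with hqdef
  have hq0 : 10 * (B / δ) ≤ q := Nat.le_ceil _
  have hq1r : (q : ℝ) < 10 * (B / δ) + 1 := Nat.ceil_lt_add_one (by linarith)
  have hq1 : 1 ≤ q := by
    have : (1 : ℝ) ≤ q := by linarith
    exact_mod_cast this
  have hqB : (q : ℝ) ≤ 11 * (B / δ) := by linarith
  have hqpos : (0 : ℝ) < q := by linarith
  refine ⟨W, q, hW1, hq1, ?_, ?_, ?_⟩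
  · rw [div_le_div_iff₀ (by positivity) (by positivity)]
    have h1 : 10 * B ≤ q * δ := by
      have h2 : 10 * (B / δ) * δ ≤ q * δ := mul_le_mul_of_nonneg_right hq0 hδ.le
      have h3 : 10 * (B / δ) * δ = 10 * B := by
        field_simp
      linarith
    linarith
  · have h1 : ((1 : ℝ) / 2) ^ W ≤ Real.exp (-L) := by
      have h2 : ((1 : ℝ) / 2) ^ W = Real.exp (-(W * Real.log 2)) := by
        rw [Real.exp_neg, ← Real.log_pow, Real.exp_log (by positivity), one_div, inv_pow]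
      rw [h2]
      refine Real.exp_le_exp.2 ?_
      nlinarith
    have h3 : Real.exp (-L) = δ / (16 * (s + 1)) := by
      rw [hLdef, LL, Real.exp_neg, Real.exp_log (by positivity), inv_div]
    rw [h3] at h1
    calc ((s : ℝ) + 1) * (1 / 2) ^ W ≤ ((s : ℝ) + 1) * (δ / (16 * (s + 1))) :=
          mul_le_mul_of_nonneg_left h1 (by positivity)
      _ = δ / 16 := by
          field_simp
      _ ≤ δ / 8 := by linarith
  · -- the exponent
    have hWpos : (0 : ℝ) < W := by linarith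
    have hLm : Lm s W q = Real.exp (Real.log 2 + Real.log (s + 1) +
        (4 * (Ls W q : ℝ)) * Real.log (13 * W)) := by
      rw [Real.exp_add, Real.exp_add, Real.exp_log (by norm_num), Real.exp_log (by positivity)]
      unfold Lm
      have h1 : Real.exp ((4 * (Ls W q : ℝ)) * Real.log (13 * W)) = (13 * W : ℝ) ^ (4 * Ls W q) := by
        have : (4 * (Ls W q : ℝ)) = ((4 * Ls W q : ℕ) : ℝ) := by push_cast; ring
        rw [this, ← Real.log_pow, Real.exp_log (by positivity)]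
      rw [h1]
    have hδ32 : δ / 32 = Real.exp (Real.log δ - 5 * Real.log 2) := by
      rw [Real.exp_sub, Real.exp_log hδ]
      have : Real.exp (5 * Real.log 2) = 32 := by
        rw [show (5 : ℝ) * Real.log 2 = ((5 : ℕ) : ℝ) * Real.log 2 by norm_num, ← Real.log_pow,
          Real.exp_log (by norm_num)]
        norm_num
      rw [this]
    have hs' : ((s : ℝ) + 1) = Real.exp (Real.log (s + 1)) := (Real.exp_log (by positivity)).symm
    have hlog13 : Real.log (13 * W) ≤ 5 * Real.log L := by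
      have h1 : (13 : ℝ) * W ≤ L ^ 5 := by
        have h2 : 13 ≤ L ^ 3 := by
          have : (2.77 : ℝ) ^ 3 ≤ L ^ 3 := pow_le_pow_left₀ (by norm_num) hL27 3
          norm_num at this
          linarith
        calc (13 : ℝ) * W ≤ L ^ 3 * L ^ 2 := mul_le_mul h2 hWL2 (by positivity) (by positivity)
          _ = L ^ 5 := by ring
      have h3 : Real.log (13 * W) ≤ Real.log (L ^ 5) := Real.log_le_log (by positivity) h1
      have h4 : Real.log (L ^ 5) = 5 * Real.log L := by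
        rw [Real.log_pow]
        norm_num
      rw [h4] at h3
      exact h3
    have hlog13' : 0 ≤ Real.log (13 * W) := Real.log_nonneg (by nlinarith)
    have ha0 := a0_le hlogL hW1 hWL2
    have hLs : (Ls W q : ℝ) ≤ 64 * (3 * L) * (4 * Real.log L) * (11 * (B / δ)) ^ 2 := by
      unfold Ls
      push_cast
      gcongr
    have hprod : 8 * (Ls W q : ℝ) * Real.log (13 * W) ≤
        3717120 * ((B / δ) ^ 2 * L * Real.log L ^ 2) := by
      calc 8 * (Ls W q : ℝ) * Real.log (13 * W) ≤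
          8 * (64 * (3 * L) * (4 * Real.log L) * (11 * (B / δ)) ^ 2) * (5 * Real.log L) := by
            gcongr
        _ = 3717120 * ((B / δ) ^ 2 * L * Real.log L ^ 2) := by ring
    have hY : L ≤ (B / δ) ^ 2 * L * Real.log L ^ 2 := by
      have h1 : 1 ≤ (B / δ) ^ 2 := one_le_pow₀ hbd
      have h2 : 1 ≤ Real.log L ^ 2 := one_le_pow₀ hlogL
      have hLpos : 0 < L := by linarith
      calc L = 1 * L * 1 := by ring
        _ ≤ (B / δ) ^ 2 * L * Real.log L ^ 2 := by gcongr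
    have hXX : XX 5000000 B s δ = 5000000 * ((B / δ) ^ 2 * L * Real.log L ^ 2) := by
      unfold XX
      rw [← hLdef]
      ring
    rw [hLm, hδ32]
    clear_value L
    generalize Real.log ((s : ℝ) + 1) = Pl at *
    conv_lhs => rw [hs']
    rw [← Real.exp_nat_mul, ← Real.exp_add, ← Real.exp_add]
    refine Real.exp_le_exp.2 ?_
    rw [hXX]
    push_cast
    linarith

end Pool.Agent.Work.MP_56168e_lc.OS
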