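import Mathlib
import Pool.Agent.Work.MP_56168e_lc.OS.Uu

set_option autoImplicit false

/-!
Upper bound.  PROOF.  dn T = ∑_i ti (T i) * uu T i (sum_ti_uu) and
uu T i = 1 - fi (el T i) ≤ (1 - v_i)^2 pointwise, because v_i = 0 where fi (el T i) = dn (fam (el T i))
is 0.  So pe φ dn ≤ ∑_i pe φ (ti (T i) * (1 - v_i)^2) ≤ ∑_i (ex (ti (T i) (1 - v_i)^2) + ε N_i) with
N_i = nrm (ti (T i) (1 - v_i)^2) ≤ 1 * (1 + Λ)^2 ≤ 4 Λ^2 (nrm_ti, nrm_mul_le, nrm_sq_le).
v_i is independent of dom (T i) (Apx.ind, el_disj), so ex (ti (T i) (1 - v_i)^2) =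
pw (T i) * ex ((1 - v_i)^2) = pw (T i) * (1 - 2 P_i + ex v_i^2) ≤ pw (T i) * (1 - P_i + η)
= ex (ti (T i) * uu T i) + η pw (T i), where P_i = ex (dn (fam (el T i))) = 1 - ex (uu T i) ≤ 1.
-/

namespace Pool.Agent.Work.MP_56168e_lc.OS

open Finset

variable {n s : ℕ}

private lemma upp_ow {P : PA n} {g : Cube n → ℝ} (h : Indep (dom P) g) (x : Cube n) :
    g (ow P x) = g x := by
  apply h
  intro i hi
  have h1 : P i = none := by
    by_contra hne
    exact hi (Finset.mem_filter.2 ⟨Finset.mem_univ _, hne⟩)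
  unfold ow
  rw [h1]
  rfl

private lemma upp_ti_mul {P : PA n} {g : Cube n → ℝ} (h : Indep (dom P) g) :
    ex (fun x => ti P x * g x) = pw P * ex g := by
  rw [ex_ti_mul]
  congr 1
  exact ex_congr fun x => upp_ow h x

theorem upp_of_apx {T : Fin s → PA n} {η Λ ε : ℝ} {φ : Cube n → ℝ}
    (hφ : Dens ε φ) (hε : 0 ≤ ε) (hη : 0 ≤ η) (hΛ : 1 ≤ Λ)
    (H : ∀ i, ∃ v, Apx (fam (el T i)) η Λ v) :
    pe φ (dn T) ≤ ex (dn T) + η * mu T + s * (ε * (4 * Λ ^ 2)) := by
  classical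
  choose v hv using H
  have hti0 : ∀ i x, 0 ≤ ti (T i) x := by
    intro i x
    unfold ti
    split_ifs <;> norm_num
  have huu : ∀ i x, uu T i x ≤ (1 - v i x) ^ 2 := by
    intro i x
    rw [uu_eq, ← dn_fam]
    by_cases h0 : dn (fam (el T i)) x = 0
    · rw [h0, (hv i).off x h0]
      norm_num
    · have h1 : dn (fam (el T i)) x = 1 := by
        unfold dn at h0 ⊢
        split_ifs at h0 ⊢ with h
        · rfl
        · exact absurd rfl h0
      rw [h1, sub_self]
      exact sq_nonneg _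
  have hb : ∀ i, Indep (dom (T i)) (v i) := fun i =>
    (hv i).ind _ (fun k => el_disj T i _ (List.get_mem _ _))
  have hb2 : ∀ i, Indep (dom (T i)) (fun x => (1 - v i x) ^ 2) := by
    intro i x y hxy
    show (1 - v i x) ^ 2 = (1 - v i y) ^ 2
    rw [hb i x y hxy]
  have hpw : ∀ i, 0 ≤ pw (T i) := fun i => by
    unfold pw
    positivity
  have hE : ∀ i, ex (fun x => ti (T i) x * (1 - v i x) ^ 2) ≤
      ex (fun x => ti (T i) x * uu T i x) + η * pw (T i) := by
    intro i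
    rw [upp_ti_mul (hb2 i), upp_ti_mul (indep_uu T i)]
    have h1 : ex (fun x => (1 - v i x) ^ 2) = 1 - 2 * ex (v i) + ex (fun x => v i x ^ 2) := by
      have e1 : ex (fun x => (1 - v i x) ^ 2) =
          ex (fun x => (1 - 2 * v i x) + v i x ^ 2) := ex_congr fun x => by ring
      rw [e1, ex_add, ex_sub, ex_smul, ex_const]
    have h2 : ex (uu T i) = 1 - ex (dn (fam (el T i))) := by
      have e1 : ex (uu T i) = ex (fun x => 1 - dn (fam (el T i)) x) :=
        ex_congr fun x => by rw [uu_eq, dn_fam]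
      rw [e1, ex_sub, ex_const]
    have h3 := (hv i).mean
    have h4 := (hv i).sq
    have h5 : ex (dn (fam (el T i))) ≤ 1 := by
      have := ex_mono (g := dn (fam (el T i))) (h := fun _ => 1) (fun x => dn_le_one _ x)
      rwa [ex_const] at this
    have h6 : η * ex (dn (fam (el T i))) ≤ η * 1 := mul_le_mul_of_nonneg_left h5 hη
    have h7 : ex (fun x => (1 - v i x) ^ 2) ≤ ex (uu T i) + η := by
      rw [h1, h2, h3]
      linarith
    calc pw (T i) * ex (fun x => (1 - v i x) ^ 2) ≤ pw (T i) * (ex (uu T i) + η) :=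
          mul_le_mul_of_nonneg_left h7 (hpw i)
      _ = pw (T i) * ex (uu T i) + η * pw (T i) := by ring
  have hN : ∀ i, nrm (fun x => ti (T i) x * (1 - v i x) ^ 2) ≤ 4 * Λ ^ 2 := by
    intro i
    have h1 : nrm (fun x => 1 - v i x) ≤ 1 + Λ := by
      refine (nrm_sub_le (fun _ => 1) (v i)).trans ?_
      rw [nrm_const, abs_one]
      linarith [(hv i).nrml]
    have h2 : nrm (fun x => (1 - v i x) ^ 2) ≤ (1 + Λ) ^ 2 :=
      (nrm_sq_le _).trans (pow_le_pow_left₀ (nrm_nonneg _) h1 2)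
    calc nrm (fun x => ti (T i) x * (1 - v i x) ^ 2)
        ≤ nrm (ti (T i)) * nrm (fun x => (1 - v i x) ^ 2) := nrm_mul_le _ _
      _ ≤ 1 * (1 + Λ) ^ 2 := by
          refine mul_le_mul (nrm_ti _) h2 (nrm_nonneg _) zero_le_one
      _ ≤ 4 * Λ ^ 2 := by nlinarith
  have hP : ∀ i, pe φ (fun x => ti (T i) x * (1 - v i x) ^ 2) ≤
      ex (fun x => ti (T i) x * uu T i x) + η * pw (T i) + ε * (4 * Λ ^ 2) := by
    intro i
    have h1 := (abs_le.1 (fool hφ hε (fun x => ti (T i) x * (1 - v i x) ^ 2))).2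
    have h2 := mul_le_mul_of_nonneg_left (hN i) hε
    linarith [hE i]
  calc pe φ (dn T) ≤ pe φ (fun x => ∑ i, ti (T i) x * (1 - v i x) ^ 2) := by
        refine pe_mono hφ fun x => ?_
        rw [← sum_ti_uu]
        exact Finset.sum_le_sum fun i _ => mul_le_mul_of_nonneg_left (huu i x) (hti0 i x)
    _ = ∑ i, pe φ (fun x => ti (T i) x * (1 - v i x) ^ 2) := pe_sum _ _ _
    _ ≤ ∑ i, (ex (fun x => ti (T i) x * uu T i x) + η * pw (T i) + ε * (4 * Λ ^ 2)) :=
        Finset.sum_le_sum fun i _ => hP i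
    _ = ex (dn T) + η * mu T + s * (ε * (4 * Λ ^ 2)) := by
        rw [Finset.sum_add_distrib, Finset.sum_add_distrib, Finset.sum_const, Finset.card_univ,
          Fintype.card_fin, nsmul_eq_mul, ← Finset.mul_sum, ← ex_sum]
        have e1 : ex (fun x => ∑ i, ti (T i) x * uu T i x) = ex (dn T) :=
          ex_congr fun x => sum_ti_uu T x
        rw [e1]
        rfl

end Pool.Agent.Work.MP_56168e_lc.OS
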