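import Mathlib
import Pool.Agent.Work.MP_56168e_lc.OS.ApxT
import Pool.Agent.Work.MP_56168e_lc.OS.Low
import Pool.Agent.Work.MP_56168e_lc.OS.Upp
import Pool.Agent.Work.MP_56168e_lc.OS.Wid
import Pool.Agent.Work.MP_56168e_lc.OS.Num

set_option autoImplicit false

/-!
Assembly.  PROOFS.  lower: num with B = 1, drop_long, apx_exists and low_of_apx with δ/4
(η = 5/(4q) ≤ δ/8, ε Λ^2 ≤ δ/32 ≤ δ/24, Lm_mono for s' ≤ s), s (1/2)^W ≤ δ/8.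
upper: num with B = M + 1, cut_long, apx_exists for every fam (el T' i) (el_width, el_length,
Lm_mono), upp_of_apx: η mu T' ≤ δ/(8 (M+1)) * (M+1) (mu T' ≤ M + 1), s ε 4 Λ^2 ≤ δ/8, and the two
errors s (1/2)^W ≤ δ/8.
-/

namespace Pool.Agent.Work.MP_56168e_lc.OS

open Finset

variable {n s : ℕ}

private lemma Two_step {s W q : ℕ} {X δ : ℝ} {ε : ℝ} (hεX : ε ≤ Real.exp (-X))
    (h3 : (s + 1) * (Real.exp (-X) * Lm s W q ^ 2) ≤ δ / 32) :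
    (s + 1) * (ε * Lm s W q ^ 2) ≤ δ / 32 := by
  refine le_trans ?_ h3
  have h1 : (0 : ℝ) ≤ (s : ℝ) + 1 := by positivity
  exact mul_le_mul_of_nonneg_left (mul_le_mul_of_nonneg_right hεX (sq_nonneg _)) h1

theorem lower : ∃ C : ℝ, 0 < C ∧ ∀ (n s : ℕ) (T : Fin s → PA n) (δ ε : ℝ) (φ : Cube n → ℝ),
    0 < δ → δ ≤ 1 → 0 ≤ ε → ε ≤ Real.exp (-(XX C 1 s δ)) → Dens ε φ →
      ex (dn T) - δ / 2 ≤ pe φ (dn T) := by
  obtain ⟨C, hC, H⟩ := num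
  refine ⟨C, hC, ?_⟩
  intro n s T δ ε φ hδ hδ1 hε hεX hφ
  obtain ⟨W, q, hW, hq, h1, h2, h3⟩ := H s δ 1 hδ hδ1 le_rfl
  obtain ⟨s', T', hs', hW', hle, hex⟩ := drop_long T W
  obtain ⟨v, hv⟩ := apx_exists T' hW hq hW'
  have h4 := Two_step hεX h3
  have hsn : (0 : ℝ) ≤ (s : ℝ) := Nat.cast_nonneg s
  have hL1 : (1 : ℝ) ≤ Lm s' W q := one_le_Lm hW
  have hL2 : Lm s' W q ≤ Lm s W q := Lm_mono hs'
  have hsq : Lm s' W q ^ 2 ≤ Lm s W q ^ 2 := pow_le_pow_left₀ (by linarith) hL2 2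
  have h5 : ε * Lm s' W q ^ 2 ≤ δ / 4 / 6 := by
    have h6 : ε * Lm s' W q ^ 2 ≤ ε * Lm s W q ^ 2 := mul_le_mul_of_nonneg_left hsq hε
    have h7 : (0 : ℝ) ≤ ε * Lm s W q ^ 2 := mul_nonneg hε (sq_nonneg _)
    have h8 : (0 : ℝ) ≤ (s : ℝ) * (ε * Lm s W q ^ 2) := mul_nonneg hsn h7
    nlinarith
  have hη0 : (0 : ℝ) ≤ 5 / (4 * (q : ℝ)) := by positivity
  have hη : 5 / (4 * (q : ℝ)) ≤ δ / 4 / 2 := by
    refine h1.trans (le_of_eq ?_)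
    ring
  have h6 := low_of_apx (δ := δ / 4) hv hφ hε (by linarith) hη0 hη hL1 h5
  have h7 : pe φ (dn T') ≤ pe φ (dn T) := pe_mono hφ hle
  have h8 : (0 : ℝ) ≤ (1 / 2 : ℝ) ^ W := by positivity
  nlinarith

theorem upper : ∃ C : ℝ, 0 < C ∧ ∀ (n s : ℕ) (T : Fin s → PA n) (M δ ε : ℝ) (φ : Cube n → ℝ),
    0 < δ → δ ≤ 1 → 1 ≤ M → mu T ≤ M → 0 ≤ ε → ε ≤ Real.exp (-(XX C M s δ)) → Dens ε φ →
      pe φ (dn T) ≤ ex (dn T) + δ / 2 := by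
  obtain ⟨C, hC, H⟩ := num
  refine ⟨4 * C, by linarith, ?_⟩
  intro n s T M δ ε φ hδ hδ1 hM hmu hε hεX hφ
  have hXX : XX C (M + 1) s δ ≤ XX (4 * C) M s δ := by
    unfold XX
    have hL : 0 ≤ LL s δ := by
      unfold LL
      apply Real.log_nonneg
      rw [le_div_iff₀ hδ]
      have : (0 : ℝ) ≤ (s : ℝ) := Nat.cast_nonneg s
      linarith
    have hB : C * ((M + 1) / δ) ^ 2 ≤ 4 * C * (M / δ) ^ 2 := by
      have h1 : (M + 1) / δ ≤ 2 * (M / δ) := by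
        rw [← mul_div_assoc]
        exact div_le_div_of_nonneg_right (by linarith) hδ.le
      have h2 : 0 ≤ (M + 1) / δ := div_nonneg (by linarith) hδ.le
      have h3 : ((M + 1) / δ) ^ 2 ≤ (2 * (M / δ)) ^ 2 := pow_le_pow_left₀ h2 h1 2
      calc C * ((M + 1) / δ) ^ 2 ≤ C * (2 * (M / δ)) ^ 2 := mul_le_mul_of_nonneg_left h3 hC.le
        _ = 4 * C * (M / δ) ^ 2 := by ring
    exact mul_le_mul_of_nonneg_right (mul_le_mul_of_nonneg_right hB hL) (sq_nonneg _)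
  obtain ⟨W, q, hW, hq, h1, h2, h3⟩ := H s δ (M + 1) hδ hδ1 (by linarith)
  obtain ⟨T', hW', hle, hex, hmu'⟩ := cut_long T W
  have hεX' : ε ≤ Real.exp (-(XX C (M + 1) s δ)) :=
    hεX.trans (Real.exp_le_exp.2 (neg_le_neg hXX))
  have h4 := Two_step hεX' h3
  have hsn : (0 : ℝ) ≤ (s : ℝ) := Nat.cast_nonneg s
  have hL1 : (1 : ℝ) ≤ Lm s W q := one_le_Lm hW
  have hη0 : (0 : ℝ) ≤ 5 / (4 * (q : ℝ)) := by positivity
  have hA : ∀ i, ∃ v, Apx (fam (el T' i)) (5 / (4 * (q : ℝ))) (Lm s W q) v := by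
    intro i
    obtain ⟨v, hv⟩ := apx_exists (fam (el T' i)) hW hq
      (fun k => el_width T' i hW' _ (List.get_mem _ _))
    exact ⟨v, hv.off, hv.mean, hv.sq, hv.nrml.trans (Lm_mono (el_length T' i)), hv.ind⟩
  have h5 := upp_of_apx hφ hε hη0 hL1 hA
  have h6 : pe φ (dn T) ≤ pe φ (dn T') := pe_mono hφ hle
  have h8 : (0 : ℝ) ≤ (1 / 2 : ℝ) ^ W := by positivity
  have h9 : (s : ℝ) * (1 / 2) ^ W ≤ δ / 8 := by nlinarith
  have h10 : mu T' ≤ M + 1 := by linarith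
  have h11 : 5 / (4 * (q : ℝ)) * mu T' ≤ δ / 8 := by
    calc 5 / (4 * (q : ℝ)) * mu T' ≤ 5 / (4 * (q : ℝ)) * (M + 1) :=
          mul_le_mul_of_nonneg_left h10 hη0
      _ ≤ δ / (8 * (M + 1)) * (M + 1) := mul_le_mul_of_nonneg_right h1 (by linarith)
      _ = δ / 8 := by
          have : M + 1 ≠ 0 := by linarith
          field_simp
  have h12 : (s : ℝ) * (ε * (4 * Lm s W q ^ 2)) ≤ δ / 8 := by
    have h7 : (0 : ℝ) ≤ ε * Lm s W q ^ 2 := mul_nonneg hε (sq_nonneg _)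
    nlinarith
  linarith

end Pool.Agent.Work.MP_56168e_lc.OS
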